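import Pool.Agent.H8.FJ2.Main

/-!
# Automatic automorphisms of polynomial activity
-/

namespace Pool.Agent.H8.FJ2

open Classical Pool.Agent.H8.FJ

variable {X : Type}

theorem RayFinite.of_automatic {g : TAut X} (hg : Automatic g) : RayFinite g := by
  intro ξ
  refine Set.Finite.subset hg ?_
  rintro _ ⟨k, x, _, rfl⟩
  exact ⟨_, rfl⟩

/-- Automatic automorphisms without split sections. -/
theorem St_of_not_split [Finite X] [Nonempty X] {q : QD X} {g : TAut X} (hg : Automatic g)
    (hs : ∀ v, ¬ Split (q.Q : Set (TAut X)) (g.sec v)) : g ∈ (St q).Q := by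
  refine ⟨.of_automatic hg, {ξ : ℕ → X | ∀ n, g.sec (pre ξ n) ∉ (q.Q : Set (TAut X))},
    finite_rays hg hs, fun v hv => ?_⟩
  by_contra hcon
  obtain ⟨ξ, h1, h2⟩ := ray_through (P := (q.Q : Set (TAut X))) q.sec q.par hcon
  exact hv ξ h2 h1.symm

theorem growth [Finite X] [Nonempty X] (n : ℕ) : ∀ {g : TAut X}, Automatic g →
    g ∉ (PD X n).Q → ∃ p c, ∀ k m, p * k + c ≤ m → k.choose n ≤ activity g m := by
  induction n with
  | zero =>
    intro g _ h
    refine ⟨0, 0, fun k m _ => ?_⟩
    rw [Nat.choose_zero_right]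
    exact activity_pos h m
  | succ n ih =>
    intro g hg h
    have h1 : ∃ v, Split ((PD X n).Q : Set (TAut X)) (g.sec v) := by
      by_contra hcon
      push Not at hcon
      exact h (St_of_not_split hg hcon)
    obtain ⟨v, u, w, huw, hne, hu, hw⟩ := h1
    obtain ⟨p, c, hpc⟩ := ih ((hg.sec v).sec w) hw
    have key : ∀ k m, (p + u.length) * k + c ≤ m → k.choose (n + 1) ≤ activity (g.sec v) m := by
      intro k
      induction k with
      | zero => intro m _; simp
      | succ k ihk =>
        intro m hm
        rw [Nat.mul_succ] at hm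
        obtain ⟨m', rfl⟩ : ∃ m', m = m' + u.length := ⟨m - u.length, by omega⟩
        have h2 := activity_add (g.sec v) huw hne m'
        rw [hu] at h2
        have h3 := ihk m' (by omega)
        have h4 := hpc k m' (by nlinarith)
        rw [Nat.choose_succ_succ']
        omega
    refine ⟨p + u.length, c + v.length, fun k m hm => ?_⟩
    obtain ⟨m', rfl⟩ : ∃ m', m = m' + v.length := ⟨m - v.length, by omega⟩
    exact (key k m' (by omega)).trans (activity_sec g v m')

theorem exists_large (d C p c : ℕ) : ∃ k, C * (p * k + c + 1) ^ d < k.choose (d + 1) := by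
  by_contra hcon
  push Not at hcon
  set K := (d + 1).factorial * C * (p + (p * d + c + 1)) ^ d with hK
  have h1 := hcon (d + (K + 1))
  have h2 := Nat.pow_sub_le_descFactorial (d + (K + 1)) (d + 1)
  rw [Nat.descFactorial_eq_factorial_mul_choose] at h2
  have h3 : d + (K + 1) + 1 - (d + 1) = K + 1 := by omega
  rw [h3] at h2
  have h4 : p * (d + (K + 1)) + c + 1 ≤ (p + (p * d + c + 1)) * (K + 1) := by
    have h0 : (p + (p * d + c + 1)) * (K + 1) =
        p * (d + (K + 1)) + c + 1 + (p * d + c + 1) * K := by ring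
    rw [h0]
    exact Nat.le_add_right _ _
  have h5 : (p * (d + (K + 1)) + c + 1) ^ d ≤ (p + (p * d + c + 1)) ^ d * (K + 1) ^ d := by
    rw [← Nat.mul_pow]
    exact Nat.pow_le_pow_left h4 d
  have h6 : (K + 1) ^ (d + 1) ≤ K * (K + 1) ^ d := by
    calc (K + 1) ^ (d + 1) ≤ (d + 1).factorial * (d + (K + 1)).choose (d + 1) := h2
      _ ≤ (d + 1).factorial * (C * (p * (d + (K + 1)) + c + 1) ^ d) := Nat.mul_le_mul_left _ h1
      _ ≤ (d + 1).factorial * (C * ((p + (p * d + c + 1)) ^ d * (K + 1) ^ d)) :=
        Nat.mul_le_mul_left _ (Nat.mul_le_mul_left _ h5)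
      _ = K * (K + 1) ^ d := by rw [hK]; ring
  have h7 : 0 < (K + 1) ^ d := pow_pos (Nat.succ_pos K) d
  rw [pow_succ] at h6
  nlinarith

/-- Automatic automorphisms of polynomial activity are of polynomial type. -/
theorem PolyType.of_automatic [Finite X] [Nonempty X] {g : TAut X} (hg : Automatic g)
    (hp : PolyActivity g) : ∃ n, PolyType n g := by
  obtain ⟨C, d, h⟩ := hp
  refine ⟨d + 1, ?_⟩
  rw [← mem_PD]
  by_contra hcon
  obtain ⟨p, c, hpc⟩ := growth (d + 1) hg hcon
  obtain ⟨k, hk⟩ := exists_large d C p c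
  have h1 := hpc k (p * k + c) le_rfl
  have h2 := h (p * k + c)
  omega

/-- Groups generated by automorphisms of polynomial type and automatic automorphisms of polynomial
activity. -/
theorem FJClass.of_gens [Finite X] {K : Subgroup (TAut X)}
    (hK : K ≤ Subgroup.closure {g | (∃ n, PolyType n g) ∨ (Automatic g ∧ PolyActivity g)}) :
    FJClass K := by
  rcases isEmpty_or_nonempty X with hX | hX
  · have : Subsingleton (TAut X) := by
      constructor
      intro g h
      ext v x
      exact hX.elim x
    exact .finite _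
  · refine FJClass.of_polyType (hK.trans (Subgroup.closure_mono ?_))
    rintro g (hg | ⟨h1, h2⟩)
    · exact hg
    · exact PolyType.of_automatic h1 h2

/-! ### Comparison with bounded and linear types -/

/-- Automorphisms of bounded type are of polynomial type. -/
theorem PolyType.of_bounded [Finite X] [Nonempty X] {g : TAut X} (hg : BoundedType g) :
    PolyType 1 g := by
  obtain ⟨D, R, hR, h⟩ := hg
  have hoff : ∀ v : List X, (∀ ξ ∈ R, v ≠ pre ξ v.length) → g.sec v ∈ finD X D := by
    intro v hv w hw
    by_contra hne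
    rw [TAut.sec_apply] at hne
    obtain ⟨ξ, hξ, k, w', h1, h2⟩ := h _ hne
    have hlen := congrArg List.length h1
    rw [List.length_append, List.length_append, length_pre] at hlen
    apply hv ξ hξ
    have h3 := congrArg (List.take v.length) h1
    rw [List.take_left' rfl, List.take_append_of_le_length (by rw [length_pre]; omega),
      pre_take _ (by omega)] at h3
    exact h3
  refine ⟨?_, R, hR, fun v hv => ⟨D, hoff v hv⟩⟩
  intro ξ
  obtain ⟨l, hl⟩ := exists_separating (hR.insert ξ)
  have h1 : (finD X D : Set (TAut X)).Finite := Set.finite_coe_iff.1 (finite_finD D)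
  have h2 : (⋃ k ∈ Set.Iio l, Set.range (fun x => g.sec (pre ξ k ++ [x]))).Finite :=
    Set.Finite.biUnion (Set.finite_Iio l) (fun k _ => Set.finite_range _)
  refine (h2.union h1).subset ?_
  rintro _ ⟨k, x, hx, rfl⟩
  rcases lt_or_ge k l with hk | hk
  · left
    rw [Set.mem_iUnion₂]
    exact ⟨k, hk, x, rfl⟩
  · right
    apply hoff
    intro η hη h3
    have h4 : ξ = η := by
      apply hl _ (Set.mem_insert _ _) _ (Set.mem_insert_of_mem _ hη)
      have h5 := congrArg (List.take l) h3
      rw [List.take_append_of_le_length (by rw [length_pre]; omega), pre_take _ hk,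
        pre_take _ (by rw [List.length_append, length_pre]; omega)] at h5
      exact h5
    rw [← h4] at h3
    exact leave_ne hx [] h3

end Pool.Agent.H8.FJ2
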