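import Pool.Agent.H8.FJ2.Def

/-!
# Closure properties of the class
-/

namespace Pool.Agent.H8.FJ2

namespace FJClass

/-- Cyclic groups: they act on a tree with one vertex. -/
theorem cyclic (G : Type) [Group G] [IsCyclic G] : FJClass G := by
  let act : MulAction G Unit :=
    { smul := fun _ x => x
      one_smul := fun _ => rfl
      mul_smul := fun _ _ _ => rfl }
  refine .tree (V := Unit) ⊥ ?_ (fun _ _ _ h => absurd h (by simp)) (fun _ _ _ h => absurd h (by simp))
    (fun _ => inferInstance)
  refine ⟨?_, ?_⟩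
  · rw [SimpleGraph.connected_iff]
    exact ⟨fun v w => (Subsingleton.elim v w) ▸ SimpleGraph.Reachable.refl v, ⟨()⟩⟩
  · exact SimpleGraph.isAcyclic_bot

/-- The trivial group. -/
theorem of_subsingleton (G : Type) [Group G] [Subsingleton G] : FJClass G :=
  .cyclic G

/-- Finite groups. -/
theorem finite (G : Type) [Group G] [Finite G] : FJClass G :=
  .fi (⊥ : Subgroup G) inferInstance (.of_subsingleton _)

theorem of_mulEquiv {G H : Type} [Group G] [Group H] (e : G ≃* H) (h : FJClass G) : FJClass H :=
  .sub e.symm.toMonoidHom e.symm.injective h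

theorem subgroup {G : Type} [Group G] (H : Subgroup G) (h : FJClass G) : FJClass H :=
  .sub H.subtype H.subtype_injective h

theorem mono {G : Type} [Group G] {H K : Subgroup G} (hHK : H ≤ K) (h : FJClass K) : FJClass H :=
  .sub (Subgroup.inclusion hHK) (Subgroup.inclusion_injective hHK) h

/-- Directed unions. -/
theorem union {G : Type} [Group G] {I : Type} [Preorder I] [IsDirected I (· ≤ ·)] [Nonempty I]
    (K : I → Subgroup G) (hK : ∀ i j, i ≤ j → K i ≤ K j) (hu : ∀ g, ∃ i, g ∈ K i)
    (h : ∀ i, FJClass (K i)) : FJClass G :=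
  .colim (fun i => K i) (fun i j hij => Subgroup.inclusion (hK i j hij)) (fun _ _ => rfl)
    (fun _ _ _ _ _ _ => rfl) (fun i => (K i).subtype) (fun _ _ _ _ => rfl)
    (fun y => by obtain ⟨i, hi⟩ := hu y; exact ⟨i, ⟨y, hi⟩, rfl⟩)
    (fun i x hx => ⟨i, le_rfl, by
      have : (x : G) = 1 := hx
      exact Subtype.ext this⟩) h

theorem isDirected_fg (G : Type) [Group G] :
    IsDirected {K : Subgroup G // K.FG} (· ≤ ·) := by
  refine ⟨fun a b => ⟨⟨a.1 ⊔ b.1, a.2.sup b.2⟩, ?_, ?_⟩⟩
  · exact (le_sup_left : a.1 ≤ a.1 ⊔ b.1)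
  · exact (le_sup_right : b.1 ≤ a.1 ⊔ b.1)

/-- A group all of whose finitely generated subgroups are in the class. -/
theorem of_fg {G : Type} [Group G] (h : ∀ K : Subgroup G, K.FG → FJClass K) : FJClass G := by
  have : IsDirected {K : Subgroup G // K.FG} (· ≤ ·) := isDirected_fg G
  have : Nonempty {K : Subgroup G // K.FG} := ⟨⟨⊥, ⟨∅, by simp⟩⟩⟩
  refine union (I := {K : Subgroup G // K.FG}) (fun K => K.1) (fun _ _ hij => hij) ?_
    (fun i => h i.1 i.2)
  intro g
  refine ⟨⟨Subgroup.closure {g}, ⟨{g}, by simp⟩⟩, Subgroup.subset_closure rfl⟩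

/-- Locally finite groups. -/
theorem of_locallyFinite {G : Type} [Group G] (h : ∀ K : Subgroup G, K.FG → Finite K) :
    FJClass G :=
  of_fg fun K hK => by
    have := h K hK
    exact .finite K

/-- Finite powers. -/
theorem pi {G : Type} [Group G] (hG : FJClass G) (ι : Type) [Finite ι] : FJClass (ι → G) := by
  have key : ∀ n : ℕ, FJClass (Fin n → G) := by
    intro n
    induction n with
    | zero => exact .finite _
    | succ n ih =>
      refine .sub (G := G × (Fin n → G))
        { toFun := fun x => (x 0, fun i => x i.succ)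
          map_one' := rfl
          map_mul' := fun _ _ => rfl } ?_ (.prod hG ih)
      intro x y hxy
      simp only [MonoidHom.coe_mk, OneHom.coe_mk, Prod.mk.injEq] at hxy
      funext i
      refine Fin.cases hxy.1 (fun j => congrFun hxy.2 j) i
  obtain ⟨n, ⟨e⟩⟩ := Finite.exists_equiv_fin ι
  refine .sub (G := Fin n → G)
    { toFun := fun x i => x (e.symm i)
      map_one' := rfl
      map_mul' := fun _ _ => rfl } ?_ (key n)
  intro x y hxy
  funext i
  have := congrFun hxy (e i)
  simpa using this

/-- A group acting on a tree with a homomorphism to a group of the class which is injective on the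
vertex stabilisers. -/
theorem of_tree {G V Q : Type} [Group G] [MulAction G V] [Group Q] (Γ : SimpleGraph V)
    (hΓ : Γ.IsTree) (hadj : ∀ (g : G) (v w : V), Γ.Adj v w → Γ.Adj (g • v) (g • w))
    (hinv : ∀ (g : G) (v w : V), Γ.Adj v w → g • v = w → g • w ≠ v) (f : G →* Q)
    (hf : ∀ (v : V) (g : G), g • v = v → f g = 1 → g = 1) (hQ : FJClass Q) : FJClass G := by
  refine .ext f hQ (fun q => ?_)
  refine .tree (V := V) Γ hΓ (fun g v w h => hadj g v w h) (fun g v w h => hinv g v w h) ?_
  intro v
  let p : MulAction.stabilizer ((Subgroup.zpowers q).comap f) v →* Subgroup.zpowers q :=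
    { toFun := fun x => ⟨f x.1.1, x.1.2⟩
      map_one' := Subtype.ext (map_one f)
      map_mul' := fun x y => Subtype.ext (map_mul f _ _) }
  refine isCyclic_of_injective p ?_
  rw [injective_iff_map_eq_one]
  intro x hx
  apply Subtype.ext
  apply Subtype.ext
  have h1 : f x.1.1 = 1 := congrArg Subtype.val hx
  have h2 : (x.1.1 : G) • v = v := x.2
  exact hf v _ h2 h1

end FJClass

end Pool.Agent.H8.FJ2
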