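import Pool.Agent.H8.FJ2.Retract
import Pool.Agent.H8.FJ.Loc

/-!
# Directed colimits of groups with a fixed retract
-/

namespace Pool.Agent.H8.FJ2

open Monoid Classical Pool.Agent.H8.FJ

/-- A directed system of groups with a colimit. -/
structure CL (I : Type) [Preorder I] (G : I → Type) [∀ i, Group (G i)] (H : Type) [Group H] where
  f : ∀ i j, i ≤ j → G i →* G j
  g : ∀ i, G i →* H
  hid : ∀ i x, f i i le_rfl x = x
  hcomp : ∀ i j k (hij : i ≤ j) (hjk : j ≤ k) (x : G i),
    f j k hjk (f i j hij x) = f i k (hij.trans hjk) x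
  hg : ∀ i j (hij : i ≤ j) (x : G i), g j (f i j hij x) = g i x
  hsurj : ∀ y, ∃ i, ∃ x, g i x = y
  hinj : ∀ i x, g i x = 1 → ∃ j, ∃ hij : i ≤ j, f i j hij x = 1

theorem FJClass.of_CL {I : Type} [Preorder I] [IsDirected I (· ≤ ·)] [Nonempty I] {G : I → Type}
    [∀ i, Group (G i)] {H : Type} [Group H] (c : CL I G H) (h : ∀ i, FJClass (G i)) : FJClass H :=
  .colim G c.f c.hid c.hcomp c.g c.hg c.hsurj c.hinj h

namespace CL

variable {I : Type} [Preorder I] [IsDirected I (· ≤ ·)] [Nonempty I] {G : I → Type}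
  [∀ i, Group (G i)] {H : Type} [Group H] (c : CL I G H)

omit [IsDirected I (· ≤ ·)] [Nonempty I] in
theorem eq {i : I} {x y : G i} (h : c.g i x = c.g i y) :
    ∃ j, ∃ hij : i ≤ j, c.f i j hij x = c.f i j hij y := by
  obtain ⟨j, hij, hj⟩ := c.hinj i (x * y⁻¹) (by rw [map_mul, map_inv, h, mul_inv_cancel])
  rw [map_mul, map_inv, mul_inv_eq_one] at hj
  exact ⟨j, hij, hj⟩

omit [Nonempty I] in
theorem eq' {i j : I} {x : G i} {y : G j} (h : c.g i x = c.g j y) :
    ∃ k, ∃ hik : i ≤ k, ∃ hjk : j ≤ k, c.f i k hik x = c.f j k hjk y := by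
  obtain ⟨l, hil, hjl⟩ := exists_ge_ge i j
  obtain ⟨k, hlk, hk⟩ := c.eq (i := l) (x := c.f i l hil x) (y := c.f j l hjl y)
    (by rw [c.hg, c.hg, h])
  rw [c.hcomp, c.hcomp] at hk
  exact ⟨k, hil.trans hlk, hjl.trans hlk, hk⟩

/-- The universal property. -/
noncomputable def lift {Q : Type} [Group Q] (φ : ∀ i, G i →* Q)
    (hφ : ∀ i j (hij : i ≤ j) (x : G i), φ j (c.f i j hij x) = φ i x) : H →* Q :=
  have key : ∀ i j (x : G i) (y : G j), c.g i x = c.g j y → φ i x = φ j y := by
    intro i j x y h
    obtain ⟨k, hik, hjk, hk⟩ := c.eq' h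
    rw [← hφ i k hik, hk, hφ]
  { toFun := fun y => φ (c.hsurj y).choose (c.hsurj y).choose_spec.choose
    map_one' := by
      rw [key _ (Classical.arbitrary I) _ 1
        ((c.hsurj 1).choose_spec.choose_spec.trans (map_one _).symm), map_one]
    map_mul' := by
      intro y z
      obtain ⟨k, hik, hjk⟩ := exists_ge_ge (c.hsurj y).choose (c.hsurj z).choose
      rw [← hφ _ k hik (c.hsurj y).choose_spec.choose,
        ← hφ _ k hjk (c.hsurj z).choose_spec.choose, ← map_mul]
      apply key
      rw [(c.hsurj (y * z)).choose_spec.choose_spec, map_mul, c.hg, c.hg,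
        (c.hsurj y).choose_spec.choose_spec, (c.hsurj z).choose_spec.choose_spec] }

theorem lift_g {Q : Type} [Group Q] (φ : ∀ i, G i →* Q)
    (hφ : ∀ i j (hij : i ≤ j) (x : G i), φ j (c.f i j hij x) = φ i x) (i : I) (x : G i) :
    c.lift φ hφ (c.g i x) = φ i x := by
  show φ (c.hsurj (c.g i x)).choose (c.hsurj (c.g i x)).choose_spec.choose = φ i x
  obtain ⟨k, hik, hjk, hk⟩ := c.eq' (c.hsurj (c.g i x)).choose_spec.choose_spec
  rw [← hφ _ k hik, hk, hφ]

theorem exists_bound (F : Set I) (hF : F.Finite) : ∃ k, ∀ i ∈ F, i ≤ k := by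
  obtain ⟨k, hk⟩ := hF.toFinset.exists_le
  exact ⟨k, fun i hi => hk i (hF.mem_toFinset.2 hi)⟩

theorem lift_finite (F : Set H) (hF : F.Finite) : ∃ i, ∀ y ∈ F, ∃ x, c.g i x = y := by
  choose i x hx using c.hsurj
  obtain ⟨k, hk⟩ := exists_bound (i '' F) (hF.image i)
  refine ⟨k, fun y hy => ⟨c.f _ k (hk _ ⟨y, hy, rfl⟩) (x y), ?_⟩⟩
  rw [c.hg, hx]

theorem kill_finite {i : I} (F : Set (G i)) (hF : F.Finite) (h : ∀ x ∈ F, c.g i x = 1) :
    ∃ j, ∃ hij : i ≤ j, ∀ x ∈ F, c.f i j hij x = 1 := by
  have h1 : ∀ x : G i, ∃ j, ∃ hij : i ≤ j, x ∈ F → c.f i j hij x = 1 := by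
    intro x
    by_cases hx : x ∈ F
    · obtain ⟨j, hij, hj⟩ := c.hinj i x (h x hx)
      exact ⟨j, hij, fun _ => hj⟩
    · exact ⟨i, le_rfl, fun h => absurd h hx⟩
  choose j hij hj using h1
  obtain ⟨k, hk⟩ := exists_bound (insert i (j '' F)) ((hF.image j).insert i)
  refine ⟨k, hk i (Set.mem_insert _ _), fun x hx => ?_⟩
  rw [← c.hcomp i (j x) k (hij x) (hk _ (Or.inr ⟨x, hx, rfl⟩)), hj x hx, map_one]

end CL

/-- The groups with a homomorphism from `P'` which are built by directed colimits from groups of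
the class with `P'` as a retract. -/
inductive RelFJ (P' : Type) [Group P'] : (P : Type) → [Group P] → (P' →* P) → Prop
  | retract {P : Type} [Group P] (ι : P' →* P) (ρ : P →* P') (h : ∀ x, ρ (ι x) = x)
      (hP : FJClass P) : RelFJ P' P ι
  | colim {I : Type} [Preorder I] [IsDirected I (· ≤ ·)] [Nonempty I] {G : I → Type}
      [∀ i, Group (G i)] {H : Type} [Group H] (c : CL I G H) (κ : ∀ i, P' →* G i)
      (hκ : ∀ i j hij x, c.f i j hij (κ i x) = κ j x) (ι : P' →* H)
      (hι : ∀ i x, c.g i (κ i x) = ι x) (h : ∀ i, RelFJ P' (G i) (κ i)) : RelFJ P' H ι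

theorem RelFJ.fj {P' P : Type} [Group P'] [Group P] {ι : P' →* P} (h : RelFJ P' P ι) :
    FJClass P := by
  induction h with
  | retract ι ρ h hP => exact hP
  | colim c κ hκ ι hι h ih => exact .of_CL c ih

theorem RelFJ.sub {P' P'' : Type} [Group P'] [Group P''] (e : P'' ≃* P') {P : Type} [Group P]
    {ι : P' →* P} (h : RelFJ P' P ι) : ∀ {Q : Type} [Group Q] (f : Q →* P)
    (_ : Function.Injective f) (κ : P'' →* Q) (_ : ∀ x, f (κ x) = ι (e x)), RelFJ P'' Q κ := by
  induction h with
  | retract ι ρ h hP =>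
    intro Q _ f hf κ hκ
    refine .retract κ (e.symm.toMonoidHom.comp (ρ.comp f)) ?_ (.sub f hf hP)
    intro x
    show e.symm (ρ (f (κ x))) = x
    rw [hκ, h, e.symm_apply_apply]
  | colim c κ' hκ' ι hι h ih =>
    intro Q _ f hf κ hκ
    rename_i I _ _ _ G _ H _ _
    let Qi : ∀ i : I, Subgroup (G i) := fun i => f.range.comap (c.g i)
    have hmem : ∀ i x, κ' i (e x) ∈ Qi i := by
      intro i x
      refine ⟨κ x, ?_⟩
      rw [hκ, hι]
    let fi : ∀ i j, i ≤ j → Qi i →* Qi j := fun i j hij =>
      ((c.f i j hij).comp (Qi i).subtype).codRestrict (Qi j) (fun x => by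
        obtain ⟨q, hq⟩ := x.2
        refine ⟨q, ?_⟩
        rw [hq]
        exact (c.hg i j hij x).symm)
    let gi : ∀ i, Qi i →* Q := fun i =>
      (MonoidHom.ofInjective hf).symm.toMonoidHom.comp
        (((c.g i).comp (Qi i).subtype).codRestrict f.range (fun x => x.2))
    have hgi : ∀ i (x : Qi i), f (gi i x) = c.g i x := by
      intro i x
      have h1 := (MonoidHom.ofInjective hf).apply_symm_apply
        ((((c.g i).comp (Qi i).subtype).codRestrict f.range (fun x => x.2)) x)
      exact congrArg Subtype.val h1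
    let c' : CL I (fun i => Qi i) Q :=
      { f := fi
        g := gi
        hid := fun i x => Subtype.ext (c.hid i x)
        hcomp := fun i j k hij hjk x => Subtype.ext (c.hcomp i j k hij hjk x)
        hg := by
          intro i j hij x
          apply hf
          rw [hgi, hgi]
          exact c.hg i j hij x
        hsurj := by
          intro y
          obtain ⟨i, x, hx⟩ := c.hsurj (f y)
          refine ⟨i, ⟨x, y, hx.symm⟩, ?_⟩
          apply hf
          rw [hgi]
          exact hx
        hinj := by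
          intro i x hx
          have h1 : c.g i x = 1 := by rw [← hgi, hx, map_one]
          obtain ⟨j, hij, hj⟩ := c.hinj i x h1
          exact ⟨j, hij, Subtype.ext hj⟩ }
    refine .colim c' (fun i => ((κ' i).comp e.toMonoidHom).codRestrict (Qi i) (hmem i)) ?_ κ ?_ ?_
    · intro i j hij x
      exact Subtype.ext (hκ' i j hij (e x))
    · intro i x
      apply hf
      show f (gi i _) = _
      rw [hgi, hκ]
      exact hι i (e x)
    · intro i
      exact ih i (Qi i).subtype (Qi i).subtype_injective _ (fun x => rfl)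

/-- A variant. -/
theorem RelFJ.sub' {P' : Type} [Group P'] {P : Type} [Group P]
    {ι : P' →* P} (h : RelFJ P' P ι) {Q : Type} [Group Q] (f : Q →* P)
    (hf : Function.Injective f) (κ : P' →* Q) (hκ : ∀ x, f (κ x) = ι x) : RelFJ P' Q κ :=
  h.sub (MulEquiv.refl P') f hf κ hκ

/-- Quotients by the union of a chain of normal subgroups. -/
theorem RelFJ.quot {P' L : Type} [Group P'] [Group L] (N : ℕ → Subgroup L) [∀ i, (N i).Normal]
    (hN : ∀ i j, i ≤ j → N i ≤ N j) {H : Type} [Group H] (p : L →* H)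
    (hp : Function.Surjective p) (hker : ∀ x, p x = 1 ↔ ∃ i, x ∈ N i) (a : P' →* L)
    (h : ∀ i, RelFJ P' (L ⧸ N i) ((QuotientGroup.mk' (N i)).comp a)) :
    RelFJ P' H (p.comp a) := by
  have hle : ∀ i, N i ≤ p.ker := fun i x hx => (hker x).2 ⟨i, hx⟩
  let c : CL ℕ (fun i => L ⧸ N i) H :=
    { f := fun i j hij => QuotientGroup.map (N i) (N j) (MonoidHom.id L) (hN i j hij)
      g := fun i => QuotientGroup.lift (N i) p (hle i)
      hid := fun i x => by
        obtain ⟨x, rfl⟩ := QuotientGroup.mk_surjective x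
        rfl
      hcomp := fun i j k hij hjk x => by
        obtain ⟨x, rfl⟩ := QuotientGroup.mk_surjective x
        rfl
      hg := fun i j hij x => by
        obtain ⟨x, rfl⟩ := QuotientGroup.mk_surjective x
        rfl
      hsurj := fun y => by
        obtain ⟨x, rfl⟩ := hp y
        exact ⟨0, (x : L ⧸ N 0), rfl⟩
      hinj := fun i x hx => by
        obtain ⟨x, rfl⟩ := QuotientGroup.mk_surjective x
        have h1 : p x = 1 := hx
        obtain ⟨j, hj⟩ := (hker x).1 h1
        refine ⟨max i j, le_max_left _ _, ?_⟩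
        show ((x : L) : L ⧸ N (max i j)) = 1
        rw [QuotientGroup.eq_one_iff]
        exact hN _ _ (le_max_right _ _) hj }
  refine .colim c (fun i => (QuotientGroup.mk' (N i)).comp a) (fun i j hij x => rfl) _
    (fun i x => rfl) h

/-- Increasing unions of subgroups. -/
theorem RelFJ.union {P' H : Type} [Group P'] [Group H] (K : ℕ → Subgroup H)
    (hK : ∀ i j, i ≤ j → K i ≤ K j) (hu : ∀ g, ∃ i, g ∈ K i) (ι : P' →* H)
    (hι : ∀ i x, ι x ∈ K i) (h : ∀ i, RelFJ P' (K i) (ι.codRestrict (K i) (hι i))) :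
    RelFJ P' H ι := by
  let c : CL ℕ (fun i => K i) H :=
    { f := fun i j hij => Subgroup.inclusion (hK i j hij)
      g := fun i => (K i).subtype
      hid := fun i x => rfl
      hcomp := fun i j k hij hjk x => rfl
      hg := fun i j hij x => rfl
      hsurj := fun y => by
        obtain ⟨i, hi⟩ := hu y
        exact ⟨i, ⟨y, hi⟩, rfl⟩
      hinj := fun i x hx => ⟨i, le_rfl, Subtype.ext hx⟩ }
  exact .colim c (fun i => ι.codRestrict (K i) (hι i)) (fun i j hij x => rfl) ι (fun i x => rfl) h

/-! ### Amalgamated products -/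

theorem RelFJ.amalg {E T : Type} [Group E] [Group T] (i : E →* T) (hi : Function.Injective i)
    (hT : FJClass T) {C : Type} [Group C] {ι : E →* C} (h : RelFJ E C ι) :
    RelFJ T (Amalg i ι) (aInl i ι) := by
  induction h with
  | retract ι ρ h hP =>
    refine .retract (aInl i ι) (aLift i ι (MonoidHom.id T) (i.comp ρ) ?_) ?_
      (.amalg_retract i ι ρ hi h hT hP)
    · intro k
      show i k = i (ρ (ι k))
      rw [h]
    · intro x
      rw [aLift_inl]
      rfl
  | colim c κ hκ ι hι h ih =>
    rename_i I _ _ _ G _ H _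
    let fi : ∀ k l, k ≤ l → Amalg i (κ k) →* Amalg i (κ l) := fun k l hkl =>
      aLift i (κ k) (aInl i (κ l)) ((aInr i (κ l)).comp (c.f k l hkl)) (by
        intro e
        rw [MonoidHom.comp_apply, hκ, aGlue])
    have fi_inl : ∀ k l hkl x, fi k l hkl (aInl i (κ k) x) = aInl i (κ l) x := by
      intro k l hkl x
      exact aLift_inl _ _ _ _ _ _
    have fi_inr : ∀ k l hkl x, fi k l hkl (aInr i (κ k) x) = aInr i (κ l) (c.f k l hkl x) := by
      intro k l hkl x
      exact aLift_inr _ _ _ _ _ _
    let gi : ∀ k, Amalg i (κ k) →* Amalg i ι := fun k =>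
      aLift i (κ k) (aInl i ι) ((aInr i ι).comp (c.g k)) (by
        intro e
        rw [MonoidHom.comp_apply, hι, aGlue])
    have gi_inl : ∀ k x, gi k (aInl i (κ k) x) = aInl i ι x := by
      intro k x
      exact aLift_inl _ _ _ _ _ _
    have gi_inr : ∀ k x, gi k (aInr i (κ k) x) = aInr i ι (c.g k x) := by
      intro k x
      exact aLift_inr _ _ _ _ _ _
    have hid : ∀ k x, fi k k le_rfl x = x := by
      intro k x
      have h1 : fi k k le_rfl = MonoidHom.id _ := by
        apply aExt
        · intro x; rw [fi_inl]; rfl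
        · intro x; rw [fi_inr, c.hid]; rfl
      rw [h1]; rfl
    have hcomp : ∀ k l m hkl hlm x, fi l m hlm (fi k l hkl x) = fi k m (hkl.trans hlm) x := by
      intro k l m hkl hlm x
      have h1 : (fi l m hlm).comp (fi k l hkl) = fi k m (hkl.trans hlm) := by
        apply aExt
        · intro x; rw [MonoidHom.comp_apply, fi_inl, fi_inl, fi_inl]
        · intro x; rw [MonoidHom.comp_apply, fi_inr, fi_inr, fi_inr, c.hcomp]
      rw [← h1]; rfl
    have hg : ∀ k l hkl x, gi l (fi k l hkl x) = gi k x := by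
      intro k l hkl x
      have h1 : (gi l).comp (fi k l hkl) = gi k := by
        apply aExt
        · intro x; rw [MonoidHom.comp_apply, fi_inl, gi_inl, gi_inl]
        · intro x; rw [MonoidHom.comp_apply, fi_inr, gi_inr, gi_inr, c.hg]
      rw [← h1]; rfl
    have hsurj : ∀ y : Amalg i ι, ∃ k x, gi k x = y := by
      intro y
      obtain ⟨y, rfl⟩ := QuotientGroup.mk_surjective y
      induction y using Monoid.Coprod.induction_on with
      | inl t => exact ⟨Classical.arbitrary I, aInl i _ t, gi_inl _ _⟩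
      | inr d =>
        obtain ⟨k, x, hx⟩ := c.hsurj d
        refine ⟨k, aInr i _ x, ?_⟩
        rw [gi_inr, hx]
        rfl
      | mul x y hx hy =>
        obtain ⟨k, x', hx'⟩ := hx
        obtain ⟨l, y', hy'⟩ := hy
        obtain ⟨m, hkm, hlm⟩ := exists_ge_ge k l
        refine ⟨m, fi k m hkm x' * fi l m hlm y', ?_⟩
        rw [map_mul, hg, hg, hx', hy']
        rfl
    have hinj : ∀ k x, gi k x = 1 → ∃ l, ∃ hkl : k ≤ l, fi k l hkl x = 1 := by
      have hds : DirectedSystem (fun k => Amalg i (κ k)) (fun k l h => fi k l h) :=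
        ⟨fun k x => hid k x, fun {m l k} hkl hlm x => hcomp k l m hkl hlm x⟩
      let A := DirectLimit (fun k => Amalg i (κ k)) fi
      let of : ∀ k, Amalg i (κ k) →* A := fun k =>
        { toFun := fun x => ⟦⟨k, x⟩⟧
          map_one' := (DirectLimit.one_def (f := fi) k).symm
          map_mul' := fun x y => (DirectLimit.mul_def (f := fi) k x y).symm }
      have hof : ∀ k l hkl x, of l (fi k l hkl x) = of k x := by
        intro k l hkl x
        exact DirectLimit.mk_apply (F := fun k => Amalg i (κ k)) (f := fi) k l x hkl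
      let k0 := Classical.arbitrary I
      have h0 : ∀ k t, of k (aInl i (κ k) t) = of k0 (aInl i (κ k0) t) := by
        intro k t
        obtain ⟨m, hkm, hlm⟩ := exists_ge_ge k k0
        rw [← hof k m hkm, ← hof k0 m hlm, fi_inl, fi_inl]
      let φ : H →* A := c.lift (fun k => (of k).comp (aInr i (κ k))) (by
        intro k l hkl x
        rw [MonoidHom.comp_apply, MonoidHom.comp_apply, ← hof k l hkl, fi_inr])
      have hφ : ∀ k x, φ (c.g k x) = of k (aInr i (κ k) x) := fun k x => c.lift_g _ _ k x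
      let ψ : Amalg i ι →* A := aLift i ι ((of k0).comp (aInl i (κ k0))) φ (by
        intro e
        rw [MonoidHom.comp_apply, ← hι k0, hφ, aGlue])
      have hψ : ∀ k x, ψ (gi k x) = of k x := by
        intro k x
        have h1 : ψ.comp (gi k) = of k := by
          apply aExt
          · intro x
            rw [MonoidHom.comp_apply, gi_inl, h0]
            exact aLift_inl _ _ _ _ _ _
          · intro x
            rw [MonoidHom.comp_apply, gi_inr, ← hφ]
            exact aLift_inr _ _ _ _ _ _
        rw [← h1]; rfl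
      intro k x hx
      have h1 : of k x = of k 1 := by rw [← hψ, hx, map_one, map_one]
      obtain ⟨l, h2, h3, h4⟩ := Quotient.exact h1
      exact ⟨l, h2, by rw [← map_one (fi k l h3)]; exact h4⟩
    let c' : CL I (fun k => Amalg i (κ k)) (Amalg i ι) :=
      { f := fi
        g := gi
        hid := hid
        hcomp := hcomp
        hg := hg
        hsurj := hsurj
        hinj := hinj }
    exact .colim c' (fun k => aInl i (κ k)) fi_inl _ gi_inl ih

/-! ### Sequences with finitely many values -/

/-- The families of elements of `Wr Y P` with finitely many values. -/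
def FR (M Y P : Type) [Group P] : Subgroup (M → Wr Y P) where
  carrier := {s | (Set.range s).Finite}
  one_mem' := by
    refine (Set.finite_singleton 1).subset ?_
    rintro _ ⟨m, rfl⟩
    rfl
  mul_mem' := by
    intro s t hs ht
    refine (Set.Finite.image2 (· * ·) hs ht).subset ?_
    rintro _ ⟨m, rfl⟩
    exact ⟨_, ⟨m, rfl⟩, _, ⟨m, rfl⟩, rfl⟩
  inv_mem' := by
    intro s hs
    refine (Set.Finite.image (fun x => x⁻¹) hs).subset ?_
    rintro _ ⟨m, rfl⟩
    exact ⟨_, ⟨m, rfl⟩, rfl⟩

theorem mem_FR {M Y P : Type} [Group P] {s : M → Wr Y P} :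
    s ∈ FR M Y P ↔ (Set.range s).Finite := Iff.rfl

/-- Functoriality. -/
def FR.map (M Y : Type) {P Q : Type} [Group P] [Group Q] (φ : P →* Q) :
    FR M Y P →* FR M Y Q where
  toFun s := ⟨fun m => Wr.map φ ((s : M → Wr Y P) m), by
    refine (Set.Finite.image (Wr.map φ) s.2).subset ?_
    rintro _ ⟨m, rfl⟩
    exact ⟨_, ⟨m, rfl⟩, rfl⟩⟩
  map_one' := by
    apply Subtype.ext
    funext m
    exact map_one _
  map_mul' s t := by
    apply Subtype.ext
    funext m
    exact map_mul _ _ _

theorem FR.map_apply {M Y P Q : Type} [Group P] [Group Q] (φ : P →* Q) (s : FR M Y P) (m : M) :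
    (FR.map M Y φ s : M → Wr Y Q) m = Wr.map φ ((s : M → Wr Y P) m) := rfl

theorem FJClass.fr {M Y P : Type} [Group P] [Finite Y] (h : FJClass P) : FJClass (FR M Y P) := by
  refine .of_fg (fun K hK => ?_)
  obtain ⟨S, hS⟩ := hK
  have hcl : Subgroup.closure ((↑) ⁻¹' (S : Set (FR M Y P)) : Set K) = ⊤ := by
    subst hS
    exact Subgroup.closure_closure_coe_preimage
  have hfinS : ((↑) ⁻¹' (S : Set (FR M Y P)) : Set K).Finite :=
    S.finite_toSet.preimage Subtype.val_injective.injOn
  have := hfinS.to_subtype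
  let ev : M → (K →* Wr Y P) := fun m =>
    { toFun := fun s => (s.1 : M → Wr Y P) m
      map_one' := rfl
      map_mul' := fun _ _ => rfl }
  obtain ⟨J, hJ, f, hf⟩ := embed_pi _ hcl ev (by
    intro s hs
    apply Subtype.ext
    apply Subtype.ext
    funext m
    exact hs m) (by
    refine (Set.Finite.pi' (fun s : ((↑) ⁻¹' (S : Set (FR M Y P)) : Set K) => s.1.1.2)).subset ?_
    rintro _ ⟨m, rfl⟩ s
    exact ⟨m, rfl⟩)
  exact .sub f hf (.pi h.wr J)

theorem finite_secs {M Y P : Type} [Group P] [Finite Y] (s : FR M Y P) :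
    {x | ∃ m y, ((s : M → Wr Y P) m).sec y = x}.Finite := by
  have h1 : {x | ∃ m y, ((s : M → Wr Y P) m).sec y = x} ⊆
      ⋃ w ∈ Set.range (s : M → Wr Y P), Set.range w.sec := by
    rintro _ ⟨m, y, rfl⟩
    rw [Set.mem_iUnion₂]
    exact ⟨_, ⟨m, rfl⟩, y, rfl⟩
  exact (Set.Finite.biUnion s.2 (fun w _ => Set.finite_range _)).subset h1

theorem RelFJ.fr (M Y : Type) [Finite Y] {P' P : Type} [Group P'] [Group P] {ι : P' →* P}
    (h : RelFJ P' P ι) : RelFJ (FR M Y P') (FR M Y P) (FR.map M Y ι) := by
  induction h with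
  | retract ι ρ h hP =>
    refine .retract _ (FR.map M Y ρ) ?_ hP.fr
    intro s
    apply Subtype.ext
    funext m
    rw [FR.map_apply, FR.map_apply]
    refine Wr.ext rfl (fun y => ?_)
    exact h _
  | colim c κ hκ ι hι h ih =>
    rename_i I _ _ _ G _ H _
    let c' : CL I (fun i => FR M Y (G i)) (FR M Y H) :=
      { f := fun i j hij => FR.map M Y (c.f i j hij)
        g := fun i => FR.map M Y (c.g i)
        hid := by
          intro i s
          apply Subtype.ext
          funext m
          refine Wr.ext rfl (fun y => ?_)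
          exact c.hid _ _
        hcomp := by
          intro i j k hij hjk s
          apply Subtype.ext
          funext m
          refine Wr.ext rfl (fun y => ?_)
          exact c.hcomp _ _ _ _ _ _
        hg := by
          intro i j hij s
          apply Subtype.ext
          funext m
          refine Wr.ext rfl (fun y => ?_)
          exact c.hg _ _ _ _
        hsurj := by
          intro s
          obtain ⟨i, hi⟩ := c.lift_finite _ (finite_secs s)
          have h1 : ∀ y, ∃ x, y ∈ {x | ∃ m y, ((s : M → Wr Y H) m).sec y = x} →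
              c.g i x = y := by
            intro y
            by_cases hy : y ∈ {x | ∃ m y, ((s : M → Wr Y H) m).sec y = x}
            · obtain ⟨x, hx⟩ := hi y hy
              exact ⟨x, fun _ => hx⟩
            · exact ⟨1, fun h => absurd h hy⟩
          choose l hl using h1
          let Φ : Wr Y H → Wr Y (G i) := fun w => ⟨w.perm, fun y => l (w.sec y)⟩
          refine ⟨i, ⟨fun m => Φ ((s : M → Wr Y H) m), ?_⟩, ?_⟩
          · refine (Set.Finite.image Φ s.2).subset ?_
            rintro _ ⟨m, rfl⟩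
            exact ⟨_, ⟨m, rfl⟩, rfl⟩
          · apply Subtype.ext
            funext m
            refine Wr.ext rfl (fun y => ?_)
            exact hl _ ⟨m, y, rfl⟩
        hinj := by
          intro i s hs
          have h1 : ∀ m, Wr.map (c.g i) ((s : M → Wr Y (G i)) m) = 1 := fun m =>
            congrFun (congrArg Subtype.val hs) m
          obtain ⟨j, hij, hj⟩ := c.kill_finite _ (finite_secs s) (by
            rintro _ ⟨m, y, rfl⟩
            exact congrFun (congrArg Wr.sec (h1 m)) y)
          refine ⟨j, hij, ?_⟩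
          apply Subtype.ext
          funext m
          refine Wr.ext ?_ (fun y => ?_)
          · have h2 := congrArg Wr.perm (h1 m)
            exact h2
          · exact hj _ ⟨m, y, rfl⟩ }
    refine .colim c' (fun i => FR.map M Y (κ i)) ?_ _ ?_ ih
    · intro i j hij s
      apply Subtype.ext
      funext m
      refine Wr.ext rfl (fun y => ?_)
      exact hκ _ _ _ _
    · intro i s
      apply Subtype.ext
      funext m
      refine Wr.ext rfl (fun y => ?_)
      exact hι _ _

/-- Constant families. -/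
def wrConst (Y P : Type) [Group P] : Wr Y P ≃* FR Unit Y P where
  toFun w := ⟨fun _ => w, Set.toFinite _⟩
  invFun s := (s : Unit → Wr Y P) ()
  left_inv _ := rfl
  right_inv _ := rfl
  map_mul' _ _ := rfl

theorem RelFJ.wr (Y : Type) [Finite Y] {P' P : Type} [Group P'] [Group P] {ι : P' →* P}
    (h : RelFJ P' P ι) : RelFJ (Wr Y P') (Wr Y P) (Wr.map ι) :=
  (h.fr Unit Y).sub (wrConst Y P') (wrConst Y P).toMonoidHom (wrConst Y P).injective _
    (fun _ => rfl)

end Pool.Agent.H8.FJ2
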