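import Pool.Agent.H8.FJ2.Ray
import Pool.Agent.H8.FJ2.Rel

/-!
# The stabiliser of the base ray as a group of sequences
-/

namespace Pool.Agent.H8.FJ2

open Classical Pool.Agent.H8.FJ

variable {X : Type}

/-- The automorphism with given decorations. -/
noncomputable def mkD (x0 : X) (q : QD X) : (ℕ → Wr {y : X // y ≠ x0} q.Q) → TAut X
  | s, [] => Equiv.Perm.ofSubtype (s 0).perm
  | s, x :: v => if h : x = x0 then mkD x0 q (fun n => s (n + 1)) v
      else ((s 0).sec ⟨x, h⟩ : TAut X) v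

theorem mkD_nil (x0 : X) (q : QD X) (s : ℕ → Wr {y : X // y ≠ x0} q.Q) :
    mkD x0 q s [] = Equiv.Perm.ofSubtype (s 0).perm := by
  unfold mkD; rfl

theorem mkD_same (x0 : X) (q : QD X) (s : ℕ → Wr {y : X // y ≠ x0} q.Q) (v : List X) :
    mkD x0 q s (x0 :: v) = mkD x0 q (fun n => s (n + 1)) v := by
  rw [mkD, dif_pos rfl]

theorem mkD_ne (x0 : X) (q : QD X) (s : ℕ → Wr {y : X // y ≠ x0} q.Q) {x : X} (h : x ≠ x0)
    (v : List X) : mkD x0 q s (x :: v) = ((s 0).sec ⟨x, h⟩ : TAut X) v := by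
  rw [mkD, dif_neg h]

theorem mkD_rep (x0 : X) (q : QD X) (s : ℕ → Wr {y : X // y ≠ x0} q.Q) (m : ℕ) (v : List X) :
    mkD x0 q s (List.replicate m x0 ++ v) = mkD x0 q (fun n => s (n + m)) v := by
  induction m generalizing s with
  | zero => rfl
  | succ m ih =>
    rw [List.replicate_succ, List.cons_append, mkD_same, ih]
    congr 1

theorem mkD_perm (x0 : X) (q : QD X) (s : ℕ → Wr {y : X // y ≠ x0} q.Q) (m : ℕ) :
    mkD x0 q s (List.replicate m x0) = Equiv.Perm.ofSubtype (s m).perm := by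
  have h := mkD_rep x0 q s m []
  rw [List.append_nil, mkD_nil, Nat.zero_add] at h
  exact h

theorem mkD_sec (x0 : X) (q : QD X) (s : ℕ → Wr {y : X // y ≠ x0} q.Q) (m : ℕ) {y : X}
    (hy : y ≠ x0) : (mkD x0 q s).sec (List.replicate m x0 ++ [y]) = (s m).sec ⟨y, hy⟩ := by
  ext v : 1
  rw [TAut.sec_apply, List.append_assoc, mkD_rep, List.singleton_append, mkD_ne _ _ _ hy,
    Nat.zero_add]

theorem mkD_mem [Finite X] (x0 : X) (q : QD X) (s : FR ℕ {y : X // y ≠ x0} q.Q) :
    mkD x0 q s.1 ∈ Cq x0 q := by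
  refine ⟨?_, ?_, ?_⟩
  · funext n
    unfold actRay
    rw [pre_const, mkD_perm]
    exact Equiv.Perm.ofSubtype_apply_of_not_mem _ (fun h => h rfl)
  · refine .of_ray (fun _ => x0) ?_ ?_
    · refine ((finite_secs s).image (fun z : q.Q => (z : TAut X))).subset ?_
      rintro _ ⟨k, x, hx, rfl⟩
      rw [pre_const, mkD_sec x0 q s.1 k hx]
      exact ⟨_, ⟨k, ⟨x, hx⟩, rfl⟩, rfl⟩
    · intro k x hx
      rw [pre_const, mkD_sec x0 q s.1 k hx]
      exact q.rf _ ((s.1 k).sec ⟨x, hx⟩).2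
  · intro m y hy
    rw [mkD_sec x0 q s.1 m hy]
    exact ((s.1 m).sec ⟨y, hy⟩).2

theorem Cq_perm {x0 : X} {q : QD X} {c : TAut X} (hc : c ∈ Cq x0 q) (m : ℕ) (y : X) :
    (c (List.replicate m x0) y ≠ x0) ↔ y ≠ x0 := by
  have h := apply_base hc.1 m
  constructor
  · rintro h1 rfl
    exact h1 h
  · intro h1 h2
    exact h1 ((c (List.replicate m x0)).injective (h2.trans h.symm))

/-- The decorations of an element of the stabiliser. -/
noncomputable def decD [Finite X] (x0 : X) (q : QD X) : Cq x0 q →* FR ℕ {y : X // y ≠ x0} q.Q where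
  toFun c := ⟨fun m => ⟨((c : TAut X) (List.replicate m x0)).subtypePerm (Cq_perm c.2 m),
      fun y => ⟨(c : TAut X).sec (List.replicate m x0 ++ [y.1]), c.2.2.2 m y y.2⟩⟩, by
    have h1 := c.2.2.1 (fun _ => x0)
    have h2 : ((fun z : q.Q => (z : TAut X)) ⁻¹' {s : TAut X | ∃ k x, x ≠ (fun _ : ℕ => x0) k ∧
        (c : TAut X).sec (pre (fun _ => x0) k ++ [x]) = s}).Finite :=
      h1.preimage Subtype.val_injective.injOn
    have h3 : {f : {y : X // y ≠ x0} → q.Q | ∀ y, f y ∈ ((fun z : q.Q => (z : TAut X)) ⁻¹'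
        {s : TAut X | ∃ k x, x ≠ (fun _ : ℕ => x0) k ∧
        (c : TAut X).sec (pre (fun _ => x0) k ++ [x]) = s})}.Finite :=
      Set.Finite.pi' (fun _ => h2)
    refine (((Set.finite_univ (α := Equiv.Perm {y : X // y ≠ x0})).prod h3).image
      (fun p => (⟨p.1, p.2⟩ : Wr {y : X // y ≠ x0} q.Q))).subset ?_
    rintro _ ⟨m, rfl⟩
    refine ⟨(_, _), ⟨trivial, fun y => ?_⟩, rfl⟩
    refine ⟨m, y.1, y.2, ?_⟩
    rw [pre_const]⟩
  map_one' := rfl
  map_mul' g h := by
    apply Subtype.ext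
    funext m
    refine Wr.ext ?_ (fun y => ?_)
    · ext y
      show ((g : TAut X) * h) (List.replicate m x0) y =
        (g : TAut X) (List.replicate m x0) ((h : TAut X) (List.replicate m x0) y)
      rw [TAut.mul_apply, act_base h.2.1]
      rfl
    · apply Subtype.ext
      show ((g : TAut X) * h).sec (List.replicate m x0 ++ [y.1]) =
        (g : TAut X).sec (List.replicate m x0 ++ [(h : TAut X) (List.replicate m x0) y.1]) *
          (h : TAut X).sec (List.replicate m x0 ++ [y.1])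
      rw [TAut.sec_mul, TAut.act_append, act_base h.2.1, TAut.act_cons, TAut.act_nil,
        TAut.sec_apply, List.append_nil]

theorem decD_perm [Finite X] (x0 : X) (q : QD X) (c : Cq x0 q) (m : ℕ) (y : {y : X // y ≠ x0}) :
    ((((decD x0 q c).1 m).perm y : {y : X // y ≠ x0}) : X) =
      (c : TAut X) (List.replicate m x0) y := rfl

theorem decD_sec [Finite X] (x0 : X) (q : QD X) (c : Cq x0 q) (m : ℕ) (y : {y : X // y ≠ x0}) :
    (((decD x0 q c).1 m).sec y : TAut X) = (c : TAut X).sec (List.replicate m x0 ++ [y.1]) := rfl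

theorem decD_injective [Finite X] (x0 : X) (q : QD X) : Function.Injective (decD x0 q) := by
  intro c c' h
  have hp : ∀ m (y : {y : X // y ≠ x0}), (c : TAut X) (List.replicate m x0) y.1 =
      (c' : TAut X) (List.replicate m x0) y.1 := by
    intro m y
    rw [← decD_perm, ← decD_perm, h]
  have hs : ∀ m (y : {y : X // y ≠ x0}), (c : TAut X).sec (List.replicate m x0 ++ [y.1]) =
      (c' : TAut X).sec (List.replicate m x0 ++ [y.1]) := by
    intro m y
    rw [← decD_sec, ← decD_sec, h]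
  apply Subtype.ext
  ext v : 1
  rcases word_cases x0 v with hv | ⟨m, y, w, hy, hv⟩
  · rw [hv]
    ext y
    by_cases hy : y = x0
    · rw [hy, apply_base c.2.1, apply_base c'.2.1]
    · exact hp _ ⟨y, hy⟩
  · have h1 := congrFun (hs m ⟨y, hy⟩) w
    have h2 : ∀ g : TAut X, g.sec (List.replicate m x0 ++ [y]) w =
        g (List.replicate m x0 ++ y :: w) := by
      intro g
      rw [TAut.sec_apply, List.append_assoc]; rfl
    rw [hv]
    exact (h2 c).symm.trans (h1.trans (h2 c'))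

theorem decD_surjective [Finite X] (x0 : X) (q : QD X) : Function.Surjective (decD x0 q) := by
  intro s
  refine ⟨⟨mkD x0 q s.1, mkD_mem x0 q s⟩, ?_⟩
  apply Subtype.ext
  funext m
  refine Wr.ext ?_ (fun y => ?_)
  · ext y
    rw [decD_perm]
    show mkD x0 q s.1 (List.replicate m x0) y = _
    rw [mkD_perm]
    exact Equiv.Perm.ofSubtype_apply_coe _ _
  · apply Subtype.ext
    rw [decD_sec]
    exact mkD_sec x0 q s.1 m y.2

/-- The isomorphism. -/
noncomputable def eqD [Finite X] (x0 : X) (q : QD X) : Cq x0 q ≃* FR ℕ {y : X // y ≠ x0} q.Q :=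
  MulEquiv.ofBijective (decD x0 q) ⟨decD_injective x0 q, decD_surjective x0 q⟩

theorem Cq_fj [Finite X] (x0 : X) (q : QD X) (h : FJClass q.Q) : FJClass (Cq x0 q) :=
  .of_mulEquiv (eqD x0 q).symm h.fr

theorem Cq_rel [Finite X] (x0 : X) {q q' : QD X} (hq : q.Q ≤ q'.Q)
    (h : RelFJ q.Q q'.Q (Subgroup.inclusion hq)) :
    RelFJ (Cq x0 q) (Cq x0 q') (Subgroup.inclusion (Cq_mono hq)) := by
  refine (h.fr ℕ {y : X // y ≠ x0}).sub (eqD x0 q) (decD x0 q') (decD_injective x0 q') _ ?_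
  intro c
  apply Subtype.ext
  funext m
  refine Wr.ext ?_ (fun y => ?_)
  · ext y
    rfl
  · rfl

end Pool.Agent.H8.FJ2
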