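import Mathlib

/-!
# A class of groups satisfying the Farrell-Jones conjecture

`FJClass` is the smallest class of groups which contains the groups acting on trees with cyclic
vertex stabilisers and is closed under the operations of the constructors.  All of them are known to
preserve the K-theoretic Farrell-Jones conjecture with coefficients in additive categories and with
finite wreath products.
-/

namespace Pool.Agent.H8.FJ2

/-- The smallest class of groups that contains the groups acting on trees without inversions and
with cyclic vertex stabilisers, and is closed under subgroups, overgroups of finite index, products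
of two groups, directed colimits, and the following extension principle: `G` is in the class if there
is a homomorphism `f` from `G` to a group `Q` of the class such that the preimages of all the cyclic
subgroups of `Q` are in the class. -/
inductive FJClass : (G : Type) → [Group G] → Prop
  | tree {G V : Type} [Group G] [MulAction G V] (Γ : SimpleGraph V) (hΓ : Γ.IsTree)
      (hadj : ∀ (g : G) (v w : V), Γ.Adj v w → Γ.Adj (g • v) (g • w))
      (hinv : ∀ (g : G) (v w : V), Γ.Adj v w → g • v = w → g • w ≠ v)
      (hcyc : ∀ v : V, IsCyclic (MulAction.stabilizer G v)) : FJClass G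
  | sub {G H : Type} [Group G] [Group H] (f : H →* G) (hf : Function.Injective f)
      (h : FJClass G) : FJClass H
  | fi {G : Type} [Group G] (N : Subgroup G) (hN : N.FiniteIndex) (h : FJClass N) : FJClass G
  | prod {G H : Type} [Group G] [Group H] (hG : FJClass G) (hH : FJClass H) : FJClass (G × H)
  | ext {G Q : Type} [Group G] [Group Q] (f : G →* Q) (hQ : FJClass Q)
      (h : ∀ q : Q, FJClass ((Subgroup.zpowers q).comap f)) : FJClass G
  | colim {I : Type} [Preorder I] [IsDirected I (· ≤ ·)] [Nonempty I] (G : I → Type)
      [∀ i, Group (G i)] (f : ∀ i j, i ≤ j → G i →* G j)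
      (hid : ∀ i x, f i i le_rfl x = x)
      (hcomp : ∀ i j k (hij : i ≤ j) (hjk : j ≤ k) (x : G i),
        f j k hjk (f i j hij x) = f i k (hij.trans hjk) x)
      {H : Type} [Group H] (g : ∀ i, G i →* H)
      (hg : ∀ i j (hij : i ≤ j) (x : G i), g j (f i j hij x) = g i x)
      (hsurj : ∀ y, ∃ i, ∃ x, g i x = y)
      (hinj : ∀ i x, g i x = 1 → ∃ j, ∃ hij : i ≤ j, f i j hij x = 1)
      (h : ∀ i, FJClass (G i)) : FJClass H

end Pool.Agent.H8.FJ2
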