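import Pool.Agent.H8.FJ2.FPTree
import Pool.Agent.H8.FJ.Tree

/-!
# Free products of copies of a group extended by a group permuting the factors
-/

namespace Pool.Agent.H8.FJ2

open Monoid Classical Pool.Agent.H8.FJ

/-- Wreath products with symmetric groups of finite sets. -/
theorem FJClass.wr {Y L : Type} [Group L] [Finite Y] (h : FJClass L) : FJClass (Wr Y L) := by
  let p : Wr Y L →* Equiv.Perm Y :=
    { toFun := fun g => g.perm, map_one' := rfl, map_mul' := fun _ _ => rfl }
  have hfin : p.ker.FiniteIndex := by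
    have : Finite (Equiv.Perm Y) := inferInstance
    exact Subgroup.finiteIndex_ker p
  refine .fi p.ker hfin ?_
  refine .sub (G := Y → L)
    { toFun := fun g x => g.1.sec x
      map_one' := rfl
      map_mul' := fun g h => by
        funext x
        have hh : h.1.perm = 1 := h.2
        simp [hh] } ?_ (.pi h Y)
  intro g h hgh
  apply Subtype.ext
  have hg : g.1.perm = 1 := g.2
  have hh : h.1.perm = 1 := h.2
  exact Wr.ext (hg.trans hh.symm) (fun x => congrFun hgh x)

section Prj

variable {S N : Type} [Group N]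

/-- The projection to a factor. -/
noncomputable def prj (s : S) : KK S N →* N :=
  CoprodI.lift (fun s' => if s' = s then MonoidHom.id N else 1)

theorem prj_same (s : S) (n : N) : prj s (lt s n) = n := by
  unfold prj
  rw [CoprodI.lift_of, if_pos rfl]
  rfl

theorem prj_ne {s s' : S} (h : s' ≠ s) (n : N) : prj s (lt s' n) = 1 := by
  unfold prj
  rw [CoprodI.lift_of, if_neg h]
  rfl

theorem finite_supp (k : KK S N) : {s : S | prj s k ≠ 1}.Finite := by
  induction k using CoprodI.induction_on with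
  | one =>
    refine Set.finite_empty.subset ?_
    intro s hs
    exact absurd (map_one _) hs
  | of i m =>
    refine (Set.finite_singleton i).subset ?_
    intro s hs
    by_contra h
    exact hs (prj_ne (fun h' => h h'.symm) m)
  | mul x y hx hy =>
    refine (hx.union hy).subset ?_
    intro s hs
    by_contra h
    rw [Set.mem_union, not_or] at h
    obtain ⟨h1, h2⟩ := h
    have h3 : prj s x = 1 := not_not.1 h1
    have h4 : prj s y = 1 := not_not.1 h2
    exact hs (by rw [map_mul, h3, h4, one_mul])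

end Prj

namespace FPD

variable {T S N : Type} [Group T] [Group N] (F : FPD T S N)

theorem prj_act (t : T) (s : S) (k : KK S N) :
    prj (F.σ t s) (F.act t k) = F.α t s (prj s k) := by
  have h : (prj (F.σ t s)).comp (F.act t) = (F.α t s).toMonoidHom.comp (prj s) := by
    apply CoprodI.ext_hom
    intro s'
    ext n
    rw [MonoidHom.comp_apply, MonoidHom.comp_apply, MonoidHom.comp_apply, MonoidHom.comp_apply,
      F.act_of]
    by_cases h : s' = s
    · subst h
      rw [prj_same, prj_same]
      rfl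
    · rw [prj_ne h, prj_ne (fun h' => h ((F.σ t).injective h')), map_one]
  exact congrArg (fun f : KK S N →* N => f k) h

/-- A homomorphism to a group of the class which is injective on the vertex stabilisers. -/
theorem fj_of_hom' {Q : Type} [Group Q] (f : F.FP →* Q) (hQ : FJClass Q)
    (h1 : ∀ (g : F.FP) (x : KK S N), g.left * F.θ g.right x = x → f g = 1 → g = 1)
    (h2 : ∀ (g : F.FP) (s : S) (x : KK S N) (n : N), F.σ g.right s = s →
      g.left * F.θ g.right x = x * lt s n → f g = 1 → g = 1) : FJClass F.FP := by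
  refine .of_mulEquiv Subgroup.topEquiv (F.fj_of_hom ⊤ (f.comp (⊤ : Subgroup F.FP).subtype) hQ ?_ ?_)
  · intro g x hx hg
    exact Subtype.ext (h1 g x hx hg)
  · intro g s x n hs hx hg
    exact Subtype.ext (h2 g s x n hs hx hg)

end FPD

/-! ### Free products and free groups -/

section Coprod

variable (A B : Type) [Group A] [Group B]

/-- The free product of the copies of `B` indexed by `A` with the action of `A`. -/
def cD : FPD A A B where
  σ := MulAction.toPermHom A A
  α _ _ := 1
  hα _ _ _ := (one_mul _).symm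

theorem cD_σ (t s : A) : (cD A B).σ t s = t * s := rfl

/-- The embedding of the free product. -/
noncomputable def c1 : Monoid.Coprod A B →* (cD A B).FP :=
  Monoid.Coprod.lift SemidirectProduct.inr (SemidirectProduct.inl.comp (lt (1 : A)))

/-- The inverse on the free product of the copies. -/
noncomputable def c2K : KK A B →* Monoid.Coprod A B :=
  CoprodI.lift (fun s => (MulAut.conj (Monoid.Coprod.inl s)).toMonoidHom.comp Monoid.Coprod.inr)

theorem c2K_lt (s : A) (n : B) : c2K A B (lt s n) =
    Monoid.Coprod.inl s * Monoid.Coprod.inr n * (Monoid.Coprod.inl s)⁻¹ := by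
  unfold c2K
  rw [CoprodI.lift_of]
  rfl

/-- The inverse. -/
noncomputable def c2 : (cD A B).FP →* Monoid.Coprod A B :=
  SemidirectProduct.lift (c2K A B) Monoid.Coprod.inl (by
    intro t
    apply CoprodI.ext_hom
    intro s
    ext n
    show c2K A B ((cD A B).θ t (lt s n)) =
      Monoid.Coprod.inl t * c2K A B (lt s n) * (Monoid.Coprod.inl t)⁻¹
    rw [FPD.θ_apply, FPD.act_of, cD_σ, c2K_lt, c2K_lt, map_mul]
    show _ * Monoid.Coprod.inr n * _ = _
    group)

theorem c2_c1 (x : Monoid.Coprod A B) : c2 A B (c1 A B x) = x := by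
  have h : (c2 A B).comp (c1 A B) = MonoidHom.id _ := by
    apply Monoid.Coprod.hom_ext
    · apply MonoidHom.ext
      intro t
      show c2 A B (c1 A B (Monoid.Coprod.inl t)) = Monoid.Coprod.inl t
      unfold c1 c2
      rw [Monoid.Coprod.lift_apply_inl, SemidirectProduct.lift_inr]
    · apply MonoidHom.ext
      intro n
      show c2 A B (c1 A B (Monoid.Coprod.inr n)) = Monoid.Coprod.inr n
      unfold c1 c2
      rw [Monoid.Coprod.lift_apply_inr, MonoidHom.comp_apply, SemidirectProduct.lift_inl, c2K_lt,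
        map_one, one_mul, inv_one, mul_one]
  exact congrArg (fun f : Monoid.Coprod A B →* Monoid.Coprod A B => f x) h

/-- The projection to `B`. -/
noncomputable def cPr : KK A B →* B := CoprodI.lift (fun _ => MonoidHom.id B)

omit [Group A] in
theorem cPr_lt (s : A) (n : B) : cPr A B (lt s n) = n := by
  unfold cPr
  rw [CoprodI.lift_of]
  rfl

variable {A B}

/-- Free products. -/
theorem FJClass.coprod (hA : FJClass A) (hB : FJClass B) : FJClass (Monoid.Coprod A B) := by
  refine .sub (G := (cD A B).FP) (c1 A B) (fun x y hxy => by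
    rw [← c2_c1 A B x, hxy, c2_c1]) ?_
  let p : (cD A B).FP →* B := SemidirectProduct.lift (cPr A B) 1 (by
    intro t
    apply CoprodI.ext_hom
    intro s
    ext n
    show cPr A B ((cD A B).θ t (lt s n)) = 1 * cPr A B (lt s n) * 1⁻¹
    rw [FPD.θ_apply, FPD.act_of, cPr_lt, cPr_lt, one_mul, inv_one, mul_one]
    rfl)
  have hp : ∀ g : (cD A B).FP, p g = cPr A B g.left := by
    intro g
    show cPr A B g.left * 1 = _
    rw [mul_one]
  refine (cD A B).fj_of_hom' (SemidirectProduct.rightHom.prod p) (.prod hA hB) ?_ ?_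
  · intro g x hx hg
    have h1 : g.right = 1 := congrArg Prod.fst hg
    rw [h1, map_one] at hx
    have h2 : g.left * x = x := hx
    exact SemidirectProduct.ext (mul_eq_right.1 h2) h1
  · intro g s x n hs hx hg
    have h1 : g.right = 1 := congrArg Prod.fst hg
    have h2 : p g = 1 := congrArg Prod.snd hg
    rw [h1, map_one] at hx
    have h3 : g.left * x = x * lt s n := hx
    have h4 : g.left = x * lt s n * x⁻¹ := by rw [← h3, mul_inv_cancel_right]
    rw [hp, h4, map_mul, map_mul, cPr_lt, map_inv, conj_eq_one_iff] at h2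
    refine SemidirectProduct.ext ?_ h1
    rw [h4, h2, map_one, mul_one, mul_inv_cancel]
    rfl

/-- The trivial action. -/
def tD (S N : Type) [Group N] : FPD Unit S N where
  σ := 1
  α _ _ := 1
  hα _ _ _ := (one_mul _).symm

/-- Free groups. -/
theorem FJClass.free (S : Type) : FJClass (FreeGroup S) := by
  have hcyc : IsCyclic (FreeGroup Unit) := ⟨FreeGroup.of (), fun a =>
    ⟨FreeGroup.freeGroupUnitEquivInt a, FreeGroup.freeGroupUnitEquivInt.symm_apply_apply a⟩⟩
  have h1 : FJClass (tD S (FreeGroup Unit)).FP := by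
    let p : (tD S (FreeGroup Unit)).FP →* FreeGroup Unit :=
      SemidirectProduct.lift (CoprodI.lift (fun _ => MonoidHom.id (FreeGroup Unit))) 1 (by
      intro t
      apply CoprodI.ext_hom
      intro s
      apply MonoidHom.ext
      intro n
      show CoprodI.lift (fun _ => MonoidHom.id (FreeGroup Unit))
        ((tD S (FreeGroup Unit)).θ t (lt s n)) =
        1 * CoprodI.lift (fun _ => MonoidHom.id (FreeGroup Unit)) (lt s n) * 1⁻¹
      rw [FPD.θ_apply, FPD.act_of, CoprodI.lift_of, CoprodI.lift_of, one_mul, inv_one, mul_one]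
      rfl)
    have hp : ∀ g : (tD S (FreeGroup Unit)).FP, p g =
        CoprodI.lift (fun _ => MonoidHom.id (FreeGroup Unit)) g.left := by
      intro g
      show CoprodI.lift (fun _ => MonoidHom.id (FreeGroup Unit)) g.left * 1 = _
      rw [mul_one]
    refine (tD S (FreeGroup Unit)).fj_of_hom' p (.cyclic _) ?_ ?_
    · intro g x hx hg
      have h1 : g.right = 1 := Subsingleton.elim _ _
      rw [h1, map_one] at hx
      have h2 : g.left * x = x := hx
      exact SemidirectProduct.ext (mul_eq_right.1 h2) h1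
    · intro g s x n hs hx h2
      have h1 : g.right = 1 := Subsingleton.elim _ _
      rw [h1, map_one] at hx
      have h3 : g.left * x = x * lt s n := hx
      have h4 : g.left = x * lt s n * x⁻¹ := by rw [← h3, mul_inv_cancel_right]
      rw [hp, h4, map_mul, map_mul, CoprodI.lift_of, map_inv, conj_eq_one_iff] at h2
      have h5 : n = 1 := h2
      refine SemidirectProduct.ext ?_ h1
      rw [h4, h5, map_one, mul_one, mul_inv_cancel]
      rfl
  refine .sub (G := (tD S (FreeGroup Unit)).FP)
    (SemidirectProduct.inl.comp (freeGroupEquivCoprodI (ι := S)).toMonoidHom) ?_ h1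
  exact SemidirectProduct.inl_injective.comp (freeGroupEquivCoprodI (ι := S)).injective

end Coprod

namespace FPD

variable {T S N : Type} [Group T] [Group N] (F : FPD T S N)

/-- The support of the elements of a subgroup. -/
def supp (t : T) (A : Set S) : Subgroup F.FP where
  carrier := {g | g.right ∈ Subgroup.zpowers t ∧
    ∀ s, prj s g.left ≠ 1 → ∃ a ∈ A, ∃ k : ℤ, F.σ (t ^ k) a = s}
  one_mem' := ⟨one_mem _, fun s hs => absurd (by
    rw [SemidirectProduct.one_left, map_one]) hs⟩
  mul_mem' := by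
    rintro g h ⟨hg1, hg2⟩ ⟨hh1, hh2⟩
    refine ⟨mul_mem hg1 hh1, fun s hs => ?_⟩
    by_cases h1 : prj s g.left = 1
    · rw [SemidirectProduct.mul_left, map_mul, h1, one_mul, F.θ_apply] at hs
      have h2 : s = F.σ g.right ((F.σ g.right)⁻¹ s) := by simp
      have h3 : prj ((F.σ g.right)⁻¹ s) h.left ≠ 1 := by
        intro h3
        apply hs
        rw [h2, F.prj_act, h3, map_one]
      obtain ⟨a, ha, k, hk⟩ := hh2 _ h3
      obtain ⟨m, hm⟩ := hg1
      refine ⟨a, ha, m + k, ?_⟩
      rw [h2, ← hk, ← hm, zpow_add, map_mul]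
      rfl
    · exact hg2 s h1
  inv_mem' := by
    rintro g ⟨hg1, hg2⟩
    refine ⟨inv_mem hg1, fun s hs => ?_⟩
    rw [SemidirectProduct.inv_left, F.θ_apply] at hs
    have h2 : s = F.σ g.right⁻¹ (F.σ g.right s) := by simp
    have h3 : prj (F.σ g.right s) g.left ≠ 1 := by
      intro h3
      apply hs
      rw [h2, F.prj_act, map_inv, h3, inv_one, map_one]
    obtain ⟨a, ha, k, hk⟩ := hg2 _ h3
    obtain ⟨m, hm⟩ := hg1
    refine ⟨a, ha, -m + k, ?_⟩
    rw [h2, ← hk, ← hm, zpow_add, map_mul, zpow_neg]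
    rfl

variable {D : Type} [Group D] (j : N →* D) (ε : T → S → D)

/-- The homomorphism to the wreath product over an invariant set. -/
noncomputable def wrH (hε : ∀ t t' s, ε (t * t') s = ε t (F.σ t' s) * ε t' s)
    (hc : ∀ t s n, j (F.α t s n) = ε t s * j n * (ε t s)⁻¹) (H : Subgroup F.FP) (O : Set S)
    (hO : ∀ g ∈ H, ∀ s, F.σ g.right s ∈ O ↔ s ∈ O) : H →* Wr O D where
  toFun g := ⟨(F.σ (g : F.FP).right).subtypePerm (hO g g.2),
    fun s => j (prj (F.σ (g : F.FP).right s) (g : F.FP).left) * ε (g : F.FP).right s⟩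
  map_one' := by
    have hε1 : ∀ s, ε 1 s = 1 := by
      intro s
      have h := hε 1 1 s
      rw [mul_one, map_one, Equiv.Perm.one_apply] at h
      exact (mul_eq_left (a := ε 1 s)).1 h.symm
    refine Wr.ext ?_ (fun s => ?_)
    · ext s
      show F.σ (1 : F.FP).right s = s
      rw [SemidirectProduct.one_right, map_one]
      rfl
    · show j (prj (F.σ (1 : F.FP).right s) (1 : F.FP).left) * ε (1 : F.FP).right s = 1
      rw [SemidirectProduct.one_right, SemidirectProduct.one_left, map_one, map_one, hε1, mul_one]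
  map_mul' g h := by
    refine Wr.ext ?_ (fun s => ?_)
    · ext s
      show F.σ ((g : F.FP) * h).right s = F.σ (g : F.FP).right (F.σ (h : F.FP).right s)
      rw [SemidirectProduct.mul_right, map_mul]
      rfl
    · show j (prj (F.σ ((g : F.FP) * h).right s) ((g : F.FP) * h).left) *
        ε ((g : F.FP) * h).right s = (j (prj (F.σ (g : F.FP).right (F.σ (h : F.FP).right s))
          (g : F.FP).left) * ε (g : F.FP).right (F.σ (h : F.FP).right s)) *
          (j (prj (F.σ (h : F.FP).right s) (h : F.FP).left) * ε (h : F.FP).right s)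
      rw [SemidirectProduct.mul_right, SemidirectProduct.mul_left, map_mul (prj _), map_mul j,
        F.θ_apply, map_mul F.σ, Equiv.Perm.mul_apply, F.prj_act, hε, hc]
      group

theorem wrH_kill (hε : ∀ t t' s, ε (t * t') s = ε t (F.σ t' s) * ε t' s)
    (hc : ∀ t s n, j (F.α t s n) = ε t s * j n * (ε t s)⁻¹) (hj : Function.Injective j)
    (H : Subgroup F.FP) (O : Set S)
    (hO : ∀ g ∈ H, ∀ s, F.σ g.right s ∈ O ↔ s ∈ O) (g : H) (hg : (g : F.FP).right = 1) (s : S)
    (hs : s ∈ O) (x : KK S N) (n : N) (hx : (g : F.FP).left = x * lt s n * x⁻¹)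
    (h1 : F.wrH j ε hε hc H O hO g = 1) : n = 1 := by
  have hε1 : ∀ s, ε 1 s = 1 := by
    intro s
    have h := hε 1 1 s
    rw [mul_one, map_one, Equiv.Perm.one_apply] at h
    exact (mul_eq_left (a := ε 1 s)).1 h.symm
  have h2 : (F.wrH j ε hε hc H O hO g).sec ⟨s, hs⟩ = 1 := by rw [h1]; rfl
  have h3 : j (prj (F.σ (g : F.FP).right s) (g : F.FP).left) * ε (g : F.FP).right s = 1 := h2
  rw [hg, hε1, mul_one, map_one, Equiv.Perm.one_apply, hx, map_mul (prj s), map_mul (prj s),
    prj_same] at h3
  have h4 : prj s x * n * prj s x⁻¹ = 1 := hj (by rw [h3, map_one])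
  rw [map_inv] at h4
  exact conj_eq_one_iff.1 h4

/-- The homomorphism on the free product for a free orbit. -/
noncomputable def frK (t : T) (a : S) : KK S N →* Monoid.Coprod D T :=
  CoprodI.lift (fun s => if h : ∃ k : ℤ, F.σ (t ^ k) a = s then
    (MulAut.conj (Monoid.Coprod.inr (t ^ h.choose) *
      (Monoid.Coprod.inl (ε (t ^ h.choose) a))⁻¹)).toMonoidHom.comp (Monoid.Coprod.inl.comp j)
    else 1)

theorem frK_of {t : T} {a : S} (ha : ∀ k : ℤ, F.σ (t ^ k) a = a → k = 0) (k : ℤ) (n : N) :
    F.frK j ε t a (lt (F.σ (t ^ k) a) n) =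
      (Monoid.Coprod.inr (t ^ k) * (Monoid.Coprod.inl (ε (t ^ k) a))⁻¹) *
        Monoid.Coprod.inl (j n) *
        (Monoid.Coprod.inr (t ^ k) * (Monoid.Coprod.inl (ε (t ^ k) a))⁻¹)⁻¹ := by
  have hex : ∃ k' : ℤ, F.σ (t ^ k') a = F.σ (t ^ k) a := ⟨k, rfl⟩
  have hk : hex.choose = k := by
    have h1 := hex.choose_spec
    have h2 : F.σ (t ^ (-k + hex.choose)) a = a := by
      rw [zpow_add, map_mul, Equiv.Perm.mul_apply, h1, ← Equiv.Perm.mul_apply, ← map_mul,
        ← zpow_add, neg_add_cancel, zpow_zero, map_one]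
      rfl
    have := ha _ h2
    omega
  unfold frK
  rw [CoprodI.lift_of, dif_pos hex, hk]
  rfl

theorem frK_ne {t : T} {a : S} {s : S} (hs : ¬ ∃ k : ℤ, F.σ (t ^ k) a = s) (n : N) :
    F.frK j ε t a (lt s n) = 1 := by
  unfold frK
  rw [CoprodI.lift_of, dif_neg hs]
  rfl

theorem frK_act (hε : ∀ t t' s, ε (t * t') s = ε t (F.σ t' s) * ε t' s)
    (hc : ∀ t s n, j (F.α t s n) = ε t s * j n * (ε t s)⁻¹) {t : T} {a : S}
    (ha : ∀ k : ℤ, F.σ (t ^ k) a = a → k = 0) (m : ℤ) (x : KK S N) :
    F.frK j ε t a (F.act (t ^ m) x) =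
      Monoid.Coprod.inr (t ^ m) * F.frK j ε t a x * (Monoid.Coprod.inr (t ^ m))⁻¹ := by
  have h : (F.frK j ε t a).comp (F.act (t ^ m)) =
      (MulAut.conj (Monoid.Coprod.inr (t ^ m) : Monoid.Coprod D T)).toMonoidHom.comp
        (F.frK j ε t a) := by
    apply CoprodI.ext_hom
    intro s
    ext n
    rw [MonoidHom.comp_apply, MonoidHom.comp_apply, MonoidHom.comp_apply, MonoidHom.comp_apply,
      F.act_of]
    show _ = Monoid.Coprod.inr (t ^ m) * F.frK j ε t a (lt s n) * (Monoid.Coprod.inr (t ^ m))⁻¹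
    by_cases hs : ∃ k : ℤ, F.σ (t ^ k) a = s
    · obtain ⟨k, rfl⟩ := hs
      have h1 : F.σ (t ^ m) (F.σ (t ^ k) a) = F.σ (t ^ (m + k)) a := by
        rw [zpow_add, map_mul]
        rfl
      rw [h1, F.frK_of j ε ha, F.frK_of j ε ha, hc, zpow_add, hε]
      simp only [map_mul, map_inv]
      group
    · have hs' : ¬ ∃ k : ℤ, F.σ (t ^ k) a = F.σ (t ^ m) s := by
        rintro ⟨k, hk⟩
        apply hs
        refine ⟨-m + k, ?_⟩
        rw [zpow_add, map_mul, Equiv.Perm.mul_apply, hk, ← Equiv.Perm.mul_apply, ← map_mul,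
          ← zpow_add, neg_add_cancel, zpow_zero, map_one]
        rfl
      rw [F.frK_ne j ε hs, F.frK_ne j ε hs', mul_one, mul_inv_cancel]
  exact congrArg (fun f : KK S N →* Monoid.Coprod D T => f x) h

/-- The homomorphism for a free orbit. -/
noncomputable def frH (hε : ∀ t t' s, ε (t * t') s = ε t (F.σ t' s) * ε t' s)
    (hc : ∀ t s n, j (F.α t s n) = ε t s * j n * (ε t s)⁻¹) {t : T} {a : S}
    (ha : ∀ k : ℤ, F.σ (t ^ k) a = a → k = 0) (H : Subgroup F.FP)
    (hH : ∀ g ∈ H, g.right ∈ Subgroup.zpowers t) : H →* Monoid.Coprod D T where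
  toFun g := F.frK j ε t a (g : F.FP).left * Monoid.Coprod.inr (g : F.FP).right
  map_one' := by
    show F.frK j ε t a (1 : F.FP).left * Monoid.Coprod.inr (1 : F.FP).right = 1
    rw [SemidirectProduct.one_left, SemidirectProduct.one_right, map_one, map_one, mul_one]
  map_mul' g h := by
    show F.frK j ε t a ((g : F.FP) * h).left * Monoid.Coprod.inr ((g : F.FP) * h).right = _
    obtain ⟨m, hm⟩ := hH g g.2
    have hm' : t ^ m = (g : F.FP).right := hm
    rw [SemidirectProduct.mul_left, SemidirectProduct.mul_right, map_mul, F.θ_apply, ← hm',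
      F.frK_act j ε hε hc ha, map_mul]
    group

theorem frH_kill (hε : ∀ t t' s, ε (t * t') s = ε t (F.σ t' s) * ε t' s)
    (hc : ∀ t s n, j (F.α t s n) = ε t s * j n * (ε t s)⁻¹) (hj : Function.Injective j)
    {t : T} {a : S}
    (ha : ∀ k : ℤ, F.σ (t ^ k) a = a → k = 0) (H : Subgroup F.FP)
    (hH : ∀ g ∈ H, g.right ∈ Subgroup.zpowers t) (g : H) (hg : (g : F.FP).right = 1) (k : ℤ)
    (x : KK S N) (n : N) (hx : (g : F.FP).left = x * lt (F.σ (t ^ k) a) n * x⁻¹)
    (h1 : F.frH j ε hε hc ha H hH g = 1) : n = 1 := by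
  have h2 : F.frK j ε t a (g : F.FP).left * Monoid.Coprod.inr (g : F.FP).right = 1 := h1
  rw [hg, map_one, mul_one, hx, map_mul, map_mul, map_inv, F.frK_of j ε ha] at h2
  have h3 := conj_eq_one_iff.1 (conj_eq_one_iff.1 h2)
  have h4 : j n = 1 := Monoid.Coprod.inl_injective (by rw [h3, map_one])
  exact hj (by rw [h4, map_one])

/-- An infinite orbit is free. -/
theorem free_of_infinite (t : T) (a : S) (h : ¬ {s | ∃ k : ℤ, F.σ (t ^ k) a = s}.Finite) (k : ℤ)
    (hk : F.σ (t ^ k) a = a) : k = 0 := by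
  by_contra hne
  apply h
  have h1 : ∀ q : ℤ, F.σ (t ^ (k * q)) a = a := by
    have h2 : ∀ q : ℕ, F.σ (t ^ (k * q)) a = a := by
      intro q
      induction q with
      | zero =>
        rw [Nat.cast_zero, mul_zero, zpow_zero, map_one]
        rfl
      | succ q ih =>
        rw [Nat.cast_succ, mul_add, mul_one, zpow_add, map_mul, Equiv.Perm.mul_apply, hk, ih]
    intro q
    obtain ⟨n, rfl | rfl⟩ := q.eq_nat_or_neg
    · exact h2 n
    · rw [mul_neg, zpow_neg, map_inv, Equiv.Perm.inv_eq_iff_eq, h2 n]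
  refine ((Set.finite_Ico (0 : ℤ) |k|).image (fun i => F.σ (t ^ i) a)).subset ?_
  rintro s ⟨m, rfl⟩
  refine ⟨m % k, ⟨Int.emod_nonneg _ hne, Int.emod_lt_abs _ hne⟩, ?_⟩
  show F.σ (t ^ (m % k)) a = F.σ (t ^ m) a
  have h3 := Int.emod_add_mul_ediv m k
  conv_rhs => rw [← h3, zpow_add, map_mul, Equiv.Perm.mul_apply, h1]

/-- The main lemma. -/
theorem fj (hε : ∀ t t' s, ε (t * t') s = ε t (F.σ t' s) * ε t' s)
    (hc : ∀ t s n, j (F.α t s n) = ε t s * j n * (ε t s)⁻¹) (hj : Function.Injective j)
    (hT : FJClass T) (hD : FJClass D) : FJClass F.FP := by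
  refine .ext SemidirectProduct.rightHom hT (fun t => ?_)
  have hdir : IsDirected (Finset S) (· ≤ ·) := inferInstance
  have hle : ∀ A : Finset S, F.supp t A ≤ (Subgroup.zpowers t).comap SemidirectProduct.rightHom :=
    fun A g hg => hg.1
  refine .union (I := Finset S) (fun A => (F.supp t A).subgroupOf _) ?_ ?_ ?_
  · intro A B hAB
    apply Subgroup.comap_mono
    rintro g ⟨h1, h2⟩
    refine ⟨h1, fun s hs => ?_⟩
    obtain ⟨a, ha, k, hk⟩ := h2 s hs
    exact ⟨a, hAB ha, k, hk⟩
  · intro g
    refine ⟨(finite_supp (g : F.FP).left).toFinset, ?_⟩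
    rw [Subgroup.mem_subgroupOf]
    refine ⟨g.2, fun s hs => ⟨s, ?_, 0, ?_⟩⟩
    · rw [Set.Finite.coe_toFinset]
      exact hs
    · rw [zpow_zero, map_one]
      rfl
  · intro A
    suffices h : FJClass (F.supp t A) by
      refine .sub (G := F.supp t A)
        { toFun := fun x => ⟨x.1.1, Subgroup.mem_subgroupOf.1 x.2⟩
          map_one' := rfl
          map_mul' := fun _ _ => rfl } ?_ h
      intro x y hxy
      exact Subtype.ext (Subtype.ext (congrArg (fun z : F.supp t A => (z : F.FP)) hxy))
    set O : Set S := {s | ∃ a ∈ A, {s' | ∃ k : ℤ, F.σ (t ^ k) a = s'}.Finite ∧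
      ∃ k : ℤ, F.σ (t ^ k) a = s} with hOdef
    have hOfin : O.Finite := by
      have h1 : O = ⋃ a ∈ {a | a ∈ A ∧ {s' | ∃ k : ℤ, F.σ (t ^ k) a = s'}.Finite},
          {s' | ∃ k : ℤ, F.σ (t ^ k) a = s'} := by
        ext s
        simp only [hOdef, Set.mem_ofPred_eq, Set.mem_iUnion, exists_prop]
        constructor
        · rintro ⟨a, h1, h2, h3⟩
          exact ⟨a, ⟨h1, h2⟩, h3⟩
        · rintro ⟨a, ⟨h1, h2⟩, h3⟩
          exact ⟨a, h1, h2, h3⟩
      rw [h1]
      refine Set.Finite.biUnion ?_ (fun a ha => ha.2)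
      exact A.finite_toSet.subset (fun a ha => ha.1)
    have hO : ∀ g ∈ F.supp t A, ∀ s, F.σ g.right s ∈ O ↔ s ∈ O := by
      rintro g ⟨⟨m, hm⟩, _⟩ s
      have hm' : t ^ m = g.right := hm
      rw [← hm']
      constructor
      · rintro ⟨a, h1, h2, k, hk⟩
        refine ⟨a, h1, h2, -m + k, ?_⟩
        rw [zpow_add, map_mul, Equiv.Perm.mul_apply, hk, ← Equiv.Perm.mul_apply, ← map_mul,
          ← zpow_add, neg_add_cancel, zpow_zero, map_one]
        rfl
      · rintro ⟨a, h1, h2, k, hk⟩
        refine ⟨a, h1, h2, m + k, ?_⟩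
        rw [zpow_add, map_mul, Equiv.Perm.mul_apply, hk]
    have := hOfin.to_subtype
    let Ψ : F.supp t A →* T × Wr O D × (A → Monoid.Coprod D T) :=
      (SemidirectProduct.rightHom.comp (F.supp t A).subtype).prod
        ((F.wrH j ε hε hc (F.supp t A) O hO).prod (MonoidHom.pi fun a =>
          if ha : ∀ k : ℤ, F.σ (t ^ k) a = a → k = 0 then
            F.frH j ε hε hc ha (F.supp t A) (fun g hg => hg.1) else 1))
    have hQ : FJClass (T × Wr O D × (A → Monoid.Coprod D T)) :=
      .prod hT (.prod hD.wr (.pi (.coprod hD hT) A))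
    refine F.fj_of_hom (F.supp t A) Ψ hQ ?_ ?_
    · intro g x hx hΨ
      have h1 : (g : F.FP).right = 1 := congrArg Prod.fst hΨ
      rw [h1, map_one] at hx
      have h2 : (g : F.FP).left = 1 := by
        have h3 : (g : F.FP).left * x = x := hx
        exact mul_eq_right.1 h3
      apply Subtype.ext
      exact SemidirectProduct.ext h2 h1
    · intro g s x n hs hx hΨ
      have h1 : (g : F.FP).right = 1 := congrArg Prod.fst hΨ
      have h2 : F.wrH j ε hε hc (F.supp t A) O hO g = 1 :=
        congrArg (fun z : T × Wr O D × (A → Monoid.Coprod D T) => z.2.1) hΨ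
      have h3 : ∀ a : A, (if ha : ∀ k : ℤ, F.σ (t ^ k) a = a → k = 0 then
            F.frH j ε hε hc ha (F.supp t A) (fun g hg => hg.1) else 1 :
            F.supp t A →* Monoid.Coprod D T) g = 1 := fun a =>
        congrArg (fun z : T × Wr O D × (A → Monoid.Coprod D T) => z.2.2 a) hΨ
      rw [h1, map_one] at hx
      have hx' : (g : F.FP).left = x * lt s n * x⁻¹ := by
        have h4 : (g : F.FP).left * x = x * lt s n := hx
        rw [← h4, mul_inv_cancel_right]
      have hn : n = 1 := by
        by_contra hne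
        have h4 : prj s (g : F.FP).left ≠ 1 := by
          rw [hx', map_mul, map_mul, prj_same, map_inv]
          intro h5
          exact hne (conj_eq_one_iff.1 h5)
        obtain ⟨a, ha, k, hk⟩ := g.2.2 s h4
        by_cases hfin : {s' | ∃ k : ℤ, F.σ (t ^ k) a = s'}.Finite
        · exact hne (F.wrH_kill j ε hε hc hj (F.supp t A) O hO g h1 s ⟨a, ha, hfin, k, hk⟩ x n
            hx' h2)
        · have hfree := F.free_of_infinite t a hfin
          have h5 := h3 ⟨a, ha⟩
          rw [dif_pos hfree] at h5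
          rw [← hk] at hx'
          exact hne (F.frH_kill j ε hε hc hj hfree (F.supp t A) (fun g hg => hg.1) g h1 k x n hx'
            h5)
      apply Subtype.ext
      refine SemidirectProduct.ext ?_ h1
      rw [hx', hn, map_one, mul_one, mul_inv_cancel]
      rfl

end FPD

end Pool.Agent.H8.FJ2
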