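import Mathlib

/-!
# Trees given by a parent function
-/

namespace Pool.Agent.H8.FJ2

open SimpleGraph

/-- A graph given by a parent function decreasing a height is a tree. -/
theorem isTree_of_parent {V : Type} (Γ : SimpleGraph V) (r : V) (h : V → ℕ) (p : V → V)
    (h1 : ∀ v, v ≠ r → Γ.Adj v (p v) ∧ h (p v) < h v)
    (h2 : ∀ v w, Γ.Adj v w → (v ≠ r ∧ w = p v) ∨ (w ≠ r ∧ v = p w)) : Γ.IsTree := by
  classical
  have hreach : ∀ n v, h v ≤ n → Γ.Reachable v r := by
    intro n
    induction n with
    | zero =>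
      intro v hv
      by_cases hr : v = r
      · rw [hr]
      · have := (h1 v hr).2
        omega
    | succ n ih =>
      intro v hv
      by_cases hr : v = r
      · rw [hr]
      · obtain ⟨ha, hl⟩ := h1 v hr
        exact ha.reachable.trans (ih _ (by omega))
  have hne : Nonempty V := ⟨r⟩
  have hconn : Γ.Connected := by
    rw [connected_iff]
    exact ⟨fun v w => (hreach _ v le_rfl).trans (hreach _ w le_rfl).symm, hne⟩
  refine ⟨hconn, ?_⟩
  intro u c hc
  obtain ⟨v, hv, hmax⟩ := Finset.exists_max_image c.support.toFinset h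
    ⟨u, List.mem_toFinset.2 c.start_mem_support⟩
  have hv' : v ∈ c.support := List.mem_toFinset.1 hv
  have hc' := hc.rotate hv'
  have hsupp : ∀ w, w ∈ (c.rotate v hv').support → h w ≤ h v := by
    intro w hw
    apply hmax
    rw [List.mem_toFinset]
    exact (Walk.mem_support_rotate_iff _ _ hv').1 hw
  have key : ∀ w, w ∈ (c.rotate v hv').support → Γ.Adj v w → w = p v := by
    intro w hw hadj
    rcases h2 v w hadj with ⟨_, h3⟩ | ⟨h3, h4⟩
    · exact h3
    · have h5 := (h1 w h3).2
      rw [← h4] at h5
      exact absurd (hsupp w hw) (by omega)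
  have hnil : ¬ (c.rotate v hv').Nil := hc'.not_nil
  have ha1 := Walk.adj_snd hnil
  have ha2 := (Walk.adj_penultimate hnil).symm
  have e1 := key _ (Walk.getVert_mem_support _ _) ha1
  have e2 := key _ (Walk.getVert_mem_support _ _) ha2
  exact hc'.snd_ne_penultimate (e1.trans e2.symm)

end Pool.Agent.H8.FJ2
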