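import Pool.Agent.H8.FJ2.Class
import Pool.Agent.H8.FJ2.TreeLem

/-!
# The tree of a free product of copies of a group, with a group permuting the factors
-/

namespace Pool.Agent.H8.FJ2

open Monoid Classical

/-- The free product of copies of `N`. -/
abbrev KK (S N : Type) [Group N] : Type := CoprodI (fun _ : S => N)

/-- The letters. -/
abbrev lt {S N : Type} [Group N] (s : S) : N →* KK S N := CoprodI.of (M := fun _ : S => N) (i := s)

/-- An action of `T` on a free product of copies of `N` permuting the factors. -/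
structure FPD (T S N : Type) [Group T] [Group N] where
  σ : T →* Equiv.Perm S
  α : T → S → MulAut N
  hα : ∀ t t' s, α (t * t') s = α t (σ t' s) * α t' s

namespace FPD

variable {T S N : Type} [Group T] [Group N] (D : FPD T S N)

theorem α_one (s : S) : D.α 1 s = 1 := by
  have h := D.hα 1 1 s
  rw [mul_one, map_one, Equiv.Perm.one_apply] at h
  exact (mul_eq_left (a := D.α 1 s)).1 h.symm

/-- The endomorphism given by `t`. -/
def act (t : T) : KK S N →* KK S N :=
  CoprodI.lift (fun s => (lt (D.σ t s)).comp (D.α t s).toMonoidHom)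

theorem act_of (t : T) (s : S) (n : N) : D.act t (lt s n) = lt (D.σ t s) (D.α t s n) := by
  unfold act
  rw [CoprodI.lift_of]
  rfl

theorem act_one (x : KK S N) : D.act 1 x = x := by
  have h : D.act 1 = MonoidHom.id _ := by
    apply CoprodI.ext_hom
    intro s
    ext n
    rw [MonoidHom.comp_apply, MonoidHom.comp_apply, D.act_of, D.α_one, map_one]
    rfl
  rw [h]; rfl

theorem act_mul (t t' : T) (x : KK S N) : D.act (t * t') x = D.act t (D.act t' x) := by
  have h : D.act (t * t') = (D.act t).comp (D.act t') := by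
    apply CoprodI.ext_hom
    intro s
    ext n
    rw [MonoidHom.comp_apply, MonoidHom.comp_apply, MonoidHom.comp_apply, D.act_of, D.act_of,
      D.act_of, D.hα, map_mul]
    rfl
  rw [h]; rfl

/-- The action. -/
def θ : T →* MulAut (KK S N) where
  toFun t :=
    { toFun := D.act t
      invFun := D.act t⁻¹
      left_inv := fun x => by rw [← D.act_mul, inv_mul_cancel, D.act_one]
      right_inv := fun x => by rw [← D.act_mul, mul_inv_cancel, D.act_one]
      map_mul' := fun x y => map_mul _ x y }
  map_one' := by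
    ext x
    exact D.act_one x
  map_mul' t t' := by
    ext x
    exact D.act_mul t t' x

theorem θ_apply (t : T) (x : KK S N) : D.θ t x = D.act t x := rfl

/-- The semidirect product. -/
abbrev FP : Type := KK S N ⋊[D.θ] T

end FPD

/-! ### Words -/

section Words

variable {S N : Type} [Group N]

/-- The reduced word of the inverse. -/
noncomputable def W (x : KK S N) : CoprodI.Word (fun _ : S => N) := x⁻¹ • CoprodI.Word.empty

/-- The length of a word. -/
def len (w : CoprodI.Word (fun _ : S => N)) : ℕ := w.toList.length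

theorem prod_W (x : KK S N) : (W x).prod = x⁻¹ := by
  unfold W
  rw [CoprodI.Word.prod_smul, CoprodI.Word.prod_empty, mul_one]

theorem prod_smul_empty (w : CoprodI.Word (fun _ : S => N)) :
    w.prod • (CoprodI.Word.empty : CoprodI.Word (fun _ : S => N)) = w :=
  CoprodI.Word.equiv.apply_symm_apply w

theorem W_prod_inv (w : CoprodI.Word (fun _ : S => N)) : W (w.prod)⁻¹ = w := by
  unfold W
  rw [inv_inv, prod_smul_empty]

theorem W_one : W (1 : KK S N) = CoprodI.Word.empty := by
  unfold W
  rw [inv_one, one_smul]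

theorem eq_one_of_W {x : KK S N} (h : (W x).fstIdx = none) : x = 1 := by
  have h1 : W x = CoprodI.Word.empty := by
    apply CoprodI.Word.ext
    unfold CoprodI.Word.fstIdx at h
    rw [Option.map_eq_none_iff, List.head?_eq_none_iff] at h
    exact h
  have h2 := prod_W x
  rw [h1, CoprodI.Word.prod_empty] at h2
  exact inv_eq_one.1 h2.symm

/-- The first letter if it is in the factor `s`. -/
noncomputable def hd (s : S) (x : KK S N) : N := (CoprodI.Word.equivPair s (W x)).head

/-- The rest of the word. -/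
noncomputable def tl (s : S) (x : KK S N) : CoprodI.Word (fun _ : S => N) :=
  (CoprodI.Word.equivPair s (W x)).tail

theorem tl_ne (s : S) (x : KK S N) : (tl s x).fstIdx ≠ some s :=
  (CoprodI.Word.equivPair s (W x)).fstIdx_ne

theorem W_eq_rcons (s : S) (x : KK S N) :
    CoprodI.Word.rcons (CoprodI.Word.equivPair s (W x)) = W x :=
  (CoprodI.Word.equivPair s).symm_apply_apply (W x)

theorem inv_eq (s : S) (x : KK S N) : x⁻¹ = lt s (hd s x) * (tl s x).prod := by
  rw [← prod_W, ← W_eq_rcons s x, CoprodI.Word.prod_rcons]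
  rfl

theorem W_of_hd_eq_one {s : S} {x : KK S N} (h : hd s x = 1) : W x = tl s x := by
  have h' : (CoprodI.Word.equivPair s (W x)).head = 1 := h
  conv_lhs => rw [← W_eq_rcons s x]
  unfold CoprodI.Word.rcons
  rw [dif_pos h']
  rfl

theorem W_of_hd_ne_one {s : S} {x : KK S N} (h : hd s x ≠ 1) :
    W x = CoprodI.Word.cons (hd s x) (tl s x) (tl_ne s x) h := by
  have h' : ¬ (CoprodI.Word.equivPair s (W x)).head = 1 := h
  conv_lhs => rw [← W_eq_rcons s x]
  unfold CoprodI.Word.rcons
  rw [dif_neg h']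
  rfl

theorem fstIdx_of_hd {s : S} {x : KK S N} (h : hd s x ≠ 1) : (W x).fstIdx = some s := by
  rw [W_of_hd_ne_one h, CoprodI.Word.fstIdx_cons]

theorem hd_ne_one {s : S} {x : KK S N} (h : (W x).fstIdx = some s) : hd s x ≠ 1 := by
  intro h1
  rw [W_of_hd_eq_one h1] at h
  exact tl_ne s x h

theorem len_W {s : S} {x : KK S N} (h : hd s x ≠ 1) : len (W x) = len (tl s x) + 1 := by
  rw [W_of_hd_ne_one h]
  rfl

theorem tl_mul (s : S) (x : KK S N) (n : N) : tl s (x * lt s n) = tl s x := by
  unfold tl
  have h : W (x * lt s n) = lt s n⁻¹ • W x := by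
    unfold W
    rw [mul_inv_rev, mul_smul, map_inv]
  rw [h, CoprodI.Word.equivPair_smul_same]

end Words

/-! ### The tree -/

/-- The relation defining the leaves. -/
def leafSetoid (S N : Type) [Group N] : Setoid (S × KK S N) where
  r p q := p.1 = q.1 ∧ ∃ n : N, q.2 = p.2 * lt p.1 n
  iseqv :=
    { refl := fun p => ⟨rfl, 1, by rw [map_one, mul_one]⟩
      symm := by
        rintro ⟨s, x⟩ ⟨s', x'⟩ ⟨h, n, hn⟩
        simp only at h hn
        subst h
        exact ⟨rfl, n⁻¹, by simp only [hn, map_inv, mul_assoc, mul_inv_cancel, mul_one]⟩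
      trans := by
        rintro ⟨s, x⟩ ⟨s', x'⟩ ⟨s'', x''⟩ ⟨h, n, hn⟩ ⟨h', n', hn'⟩
        simp only at h hn h' hn'
        subst h h'
        exact ⟨rfl, n * n', by simp only [hn', hn, map_mul, mul_assoc]⟩ }

/-- The leaves. -/
def Leaf (S N : Type) [Group N] : Type := Quotient (leafSetoid S N)

/-- A leaf. -/
def mkLeaf {S N : Type} [Group N] (s : S) (x : KK S N) : Leaf S N :=
  Quotient.mk (leafSetoid S N) (s, x)

theorem mkLeaf_eq {S N : Type} [Group N] {s s' : S} {x x' : KK S N} :
    mkLeaf s x = mkLeaf s' x' ↔ s = s' ∧ ∃ n : N, x' = x * lt s n :=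
  Quotient.eq (r := leafSetoid S N)

theorem mkLeaf_mul {S N : Type} [Group N] (s : S) (x : KK S N) (n : N) :
    mkLeaf s (x * lt s n) = mkLeaf s x :=
  (mkLeaf_eq.2 ⟨rfl, n, rfl⟩).symm

theorem Leaf.ind {S N : Type} [Group N] {P : Leaf S N → Prop} (h : ∀ s x, P (mkLeaf s x))
    (q : Leaf S N) : P q :=
  Quotient.ind (fun p => h p.1 p.2) q

namespace FPD

variable {T S N : Type} [Group T] [Group N] (D : FPD T S N)

/-- The vertices of the tree. -/
def Vert (_ : FPD T S N) : Type := KK S N ⊕ Leaf S N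

/-- A central vertex. -/
def cen (x : KK S N) : D.Vert := Sum.inl x

/-- A leaf vertex. -/
def lf (q : Leaf S N) : D.Vert := Sum.inr q

theorem cen_inj {x y : KK S N} (h : D.cen x = D.cen y) : x = y := Sum.inl.inj h

theorem lf_inj {x y : Leaf S N} (h : D.lf x = D.lf y) : x = y := Sum.inr.inj h

theorem cen_ne_lf {x : KK S N} {y : Leaf S N} (h : D.cen x = D.lf y) : False := by
  cases h

/-- The tree. -/
def tree : SimpleGraph D.Vert where
  Adj a b := (∃ x s, a = Sum.inl x ∧ b = Sum.inr (mkLeaf s x)) ∨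
    (∃ x s, b = Sum.inl x ∧ a = Sum.inr (mkLeaf s x))
  symm := ⟨by
    rintro a b (h | h)
    · exact Or.inr h
    · exact Or.inl h⟩
  loopless := ⟨by
    rintro a (⟨x, s, h1, h2⟩ | ⟨x, s, h1, h2⟩)
    · rw [h1] at h2; cases h2
    · rw [h1] at h2; cases h2⟩

/-- The height. -/
noncomputable def ht : D.Vert → ℕ
  | Sum.inl x => 2 * len (W x)
  | Sum.inr q => Quotient.lift (fun p : S × KK S N => 2 * len (tl p.1 p.2) + 1) (by
      rintro ⟨s, x⟩ ⟨s', x'⟩ ⟨h, n, hn⟩
      simp only at h hn ⊢
      subst h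
      rw [hn, tl_mul]) q

/-- The parent. -/
noncomputable def par : D.Vert → D.Vert
  | Sum.inl x => match (W x).fstIdx with
    | none => Sum.inl x
    | some s => Sum.inr (mkLeaf s x)
  | Sum.inr q => Sum.inl (Quotient.lift (fun p : S × KK S N => ((tl p.1 p.2).prod)⁻¹) (by
      rintro ⟨s, x⟩ ⟨s', x'⟩ ⟨h, n, hn⟩
      simp only at h hn ⊢
      subst h
      rw [hn, tl_mul]) q)

theorem ht_leaf (s : S) (x : KK S N) : D.ht (Sum.inr (mkLeaf s x)) = 2 * len (tl s x) + 1 := rfl
theorem par_leaf (s : S) (x : KK S N) :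
    D.par (Sum.inr (mkLeaf s x)) = Sum.inl ((tl s x).prod)⁻¹ := rfl
theorem par_center {s : S} {x : KK S N} (h : (W x).fstIdx = some s) :
    D.par (Sum.inl x) = Sum.inr (mkLeaf s x) := by
  unfold par
  simp only [h]

theorem isTree : D.tree.IsTree := by
  have key : ∀ x s, (D.cen x ≠ D.cen 1 ∧ D.lf (mkLeaf s x) = D.par (D.cen x)) ∨
      (D.lf (mkLeaf s x) ≠ D.cen 1 ∧ D.cen x = D.par (D.lf (mkLeaf s x))) := by
    intro x s
    by_cases h : hd s x = 1
    · right
      refine ⟨fun h => D.cen_ne_lf h.symm, ?_⟩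
      have h2 : D.par (D.lf (mkLeaf s x)) = D.cen ((tl s x).prod)⁻¹ := rfl
      rw [h2, ← W_of_hd_eq_one h, prod_W, inv_inv]
    · left
      refine ⟨?_, (D.par_center (fstIdx_of_hd h)).symm⟩
      intro h1
      have h2 : x = 1 := Sum.inl.inj h1
      have h3 := fstIdx_of_hd h
      rw [h2, W_one] at h3
      cases h3
  refine isTree_of_parent D.tree (D.cen 1) D.ht D.par ?_ ?_
  · intro v hv
    rcases v with x | q
    · have hx : x ≠ 1 := fun h => hv (by rw [h]; rfl)
      rcases hs : (W x).fstIdx with _ | s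
      · exact absurd (eq_one_of_W hs) hx
      · rw [D.par_center hs]
        refine ⟨Or.inl ⟨x, s, rfl, rfl⟩, ?_⟩
        rw [ht_leaf]
        show _ < 2 * len (W x)
        rw [len_W (hd_ne_one hs)]
        omega
    · induction q using Leaf.ind with
      | h s x =>
        rw [par_leaf, ht_leaf]
        refine ⟨Or.inr ⟨_, s, rfl, ?_⟩, ?_⟩
        · have h1 : ((tl s x).prod)⁻¹ = x * lt s (hd s x) := by
            have h2 : (tl s x).prod = (lt s (hd s x))⁻¹ * x⁻¹ := by
              rw [inv_eq s x, inv_mul_cancel_left]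
            rw [h2, mul_inv_rev, inv_inv, inv_inv]
          rw [h1, mkLeaf_mul]
        · show 2 * len (W _) < _
          rw [W_prod_inv]
          omega
  · rintro v w (⟨x, s, rfl, rfl⟩ | ⟨x, s, rfl, rfl⟩)
    · exact key x s
    · exact (key x s).symm

/-- The action on the leaves. -/
def smulLeaf (g : D.FP) (q : Leaf S N) : Leaf S N :=
  Quotient.lift (fun p : S × KK S N => mkLeaf (D.σ g.right p.1) (g.left * D.θ g.right p.2)) (by
    rintro ⟨s, x⟩ ⟨s', x'⟩ ⟨h, n, hn⟩
    simp only at h hn ⊢
    subst h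
    rw [hn, map_mul, D.θ_apply _ (lt s n), D.act_of, ← mul_assoc, mkLeaf_mul]) q

theorem smulLeaf_mk (g : D.FP) (s : S) (x : KK S N) :
    D.smulLeaf g (mkLeaf s x) = mkLeaf (D.σ g.right s) (g.left * D.θ g.right x) := rfl

instance : MulAction D.FP D.Vert where
  smul g v := match v with
    | Sum.inl x => Sum.inl (g.left * D.θ g.right x)
    | Sum.inr q => Sum.inr (D.smulLeaf g q)
  one_smul v := by
    rcases v with x | q
    · show (Sum.inl ((1 : D.FP).left * D.θ (1 : D.FP).right x) : D.Vert) = Sum.inl x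
      rw [SemidirectProduct.one_left, SemidirectProduct.one_right, map_one, one_mul]
      rfl
    · induction q using Leaf.ind with
      | h s x =>
        show (Sum.inr (D.smulLeaf 1 (mkLeaf s x)) : D.Vert) = Sum.inr (mkLeaf s x)
        rw [smulLeaf_mk, SemidirectProduct.one_left, SemidirectProduct.one_right, map_one, map_one,
          one_mul]
        rfl
  mul_smul g h v := by
    rcases v with x | q
    · show (Sum.inl ((g * h).left * D.θ (g * h).right x) : D.Vert) =
        Sum.inl (g.left * D.θ g.right (h.left * D.θ h.right x))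
      rw [SemidirectProduct.mul_left, SemidirectProduct.mul_right, map_mul, map_mul, mul_assoc]
      rfl
    · induction q using Leaf.ind with
      | h s x =>
        show (Sum.inr (D.smulLeaf (g * h) (mkLeaf s x)) : D.Vert) =
          Sum.inr (D.smulLeaf g (D.smulLeaf h (mkLeaf s x)))
        rw [smulLeaf_mk, smulLeaf_mk, smulLeaf_mk, SemidirectProduct.mul_left,
          SemidirectProduct.mul_right, map_mul, map_mul, map_mul, mul_assoc]
        rfl

theorem smul_center (g : D.FP) (x : KK S N) :
    g • D.cen x = D.cen (g.left * D.θ g.right x) := rfl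

theorem smul_leaf (g : D.FP) (s : S) (x : KK S N) :
    g • D.lf (mkLeaf s x) = D.lf (mkLeaf (D.σ g.right s) (g.left * D.θ g.right x)) := rfl

theorem adj_smul (g : D.FP) (v w : D.Vert) (h : D.tree.Adj v w) :
    D.tree.Adj (g • v) (g • w) := by
  rcases h with ⟨x, s, rfl, rfl⟩ | ⟨x, s, rfl, rfl⟩
  · exact Or.inl ⟨_, _, rfl, rfl⟩
  · exact Or.inr ⟨_, _, rfl, rfl⟩

theorem no_inv (g : D.FP) (v w : D.Vert) (h : D.tree.Adj v w) (hg : g • v = w) :
    g • w ≠ v := by
  rcases h with ⟨x, s, rfl, rfl⟩ | ⟨x, s, rfl, rfl⟩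
  · exact (D.cen_ne_lf ((D.smul_center g x).symm.trans hg)).elim
  · exact (D.cen_ne_lf ((D.smul_leaf g s x).symm.trans hg).symm).elim

/-- A subgroup of the semidirect product with a homomorphism to a group of the class which is
injective on the vertex stabilisers. -/
theorem fj_of_hom {Q : Type} [Group Q] (H : Subgroup D.FP) (f : H →* Q) (hQ : FJClass Q)
    (h1 : ∀ (g : H) (x : KK S N), (g : D.FP).left * D.θ (g : D.FP).right x = x → f g = 1 → g = 1)
    (h2 : ∀ (g : H) (s : S) (x : KK S N) (n : N), D.σ (g : D.FP).right s = s →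
      (g : D.FP).left * D.θ (g : D.FP).right x = x * lt s n → f g = 1 → g = 1) : FJClass H := by
  refine .of_tree (V := D.Vert) D.tree D.isTree (fun g v w h => D.adj_smul g v w h)
    (fun g v w h hg => D.no_inv g v w h hg) f ?_ hQ
  intro v g hg hfg
  rcases v with x | q
  · refine h1 g x ?_ hfg
    have h3 : (g : D.FP) • D.cen x = D.cen x := hg
    rw [smul_center] at h3
    exact D.cen_inj h3
  · induction q using Leaf.ind with
    | h s x =>
      have h3 : (g : D.FP) • D.lf (mkLeaf s x) = D.lf (mkLeaf s x) := hg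
      rw [smul_leaf] at h3
      obtain ⟨h5, n, hn⟩ := mkLeaf_eq.1 (D.lf_inj h3).symm
      exact h2 g s x n h5.symm hn hfg

end FPD

end Pool.Agent.H8.FJ2
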