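import Pool.Agent.H8.FJ2.Dec

/-!
# The relative statement for the group generated by directed automorphisms and for the levels
-/

namespace Pool.Agent.H8.FJ2

open Classical Pool.Agent.H8.FJ

variable {X : Type}

/-- The wreath recursion of a self-similar group which is closed under passing to the parents. -/
def selfWr (G : Subgroup (TAut X)) (hsec : ∀ g ∈ G, ∀ x, g.sec [x] ∈ G)
    (hpar : ∀ g : TAut X, (∀ x, g.sec [x] ∈ G) → g ∈ G) : G ≃* Wr X G where
  toFun g := ⟨(g : TAut X) [], fun x => ⟨(g : TAut X).sec [x], hsec g g.2 x⟩⟩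
  invFun w := ⟨fun v => match v with
    | [] => w.perm
    | x :: v => (w.sec x : TAut X) v, hpar _ (fun x => (w.sec x).2)⟩
  left_inv g := by
    apply Subtype.ext
    ext v : 1
    cases v <;> rfl
  right_inv w := Wr.ext rfl (fun x => rfl)
  map_mul' g h := Wr.ext rfl (fun x => Subtype.ext (TAut.sec_mul (g : TAut X) h [x]))

theorem selfWr_perm (G : Subgroup (TAut X)) (hsec : ∀ g ∈ G, ∀ x, g.sec [x] ∈ G)
    (hpar : ∀ g : TAut X, (∀ x, g.sec [x] ∈ G) → g ∈ G) (g : G) :
    (selfWr G hsec hpar g).perm = (g : TAut X) [] := rfl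

theorem selfWr_sec (G : Subgroup (TAut X)) (hsec : ∀ g ∈ G, ∀ x, g.sec [x] ∈ G)
    (hpar : ∀ g : TAut X, (∀ x, g.sec [x] ∈ G) → g ∈ G) (g : G) (x : X) :
    (selfWr G hsec hpar g).sec x = ⟨(g : TAut X).sec [x], hsec g g.2 x⟩ := rfl

/-- The quotients by the kernels of the recursion. -/
theorem rel_ker [Finite X] (P : Pre X) (hpar : ∀ g : TAut X, (∀ x, g.sec [x] ∈ P.G) → g ∈ P.G)
    (h : RelFJ P.G P.L P.a) (m : ℕ) :
    RelFJ P.G (P.L ⧸ (P.toKData.toRec.Phi m).ker)
      ((QuotientGroup.mk' (P.toKData.toRec.Phi m).ker).comp P.a) := by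
  induction m with
  | zero =>
    have h0 : ∀ w ∈ (P.toKData.toRec.Phi 0).ker, w = 1 := by
      intro w hw
      exact ((Rec.mem_ker_Phi _).1 hw [] rfl).2
    refine h.sub' (QuotientGroup.lift _ (MonoidHom.id P.L) (fun w hw => h0 w hw)) ?_ _
      (fun x => rfl)
    rw [injective_iff_map_eq_one]
    intro w hw
    obtain ⟨w, rfl⟩ := QuotientGroup.mk_surjective w
    have h1 : w = 1 := hw
    rw [h1]
    rfl
  | succ m ih =>
    let p : P.L →* Wr X (P.L ⧸ (P.toKData.toRec.Phi m).ker) :=
      (Wr.map (QuotientGroup.mk' (P.toKData.toRec.Phi m).ker)).comp P.phi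
    have hp : ∀ w, p w = 1 ↔ w ∈ (P.toKData.toRec.Phi (m + 1)).ker := by
      intro w
      rw [Rec.mem_ker_Phi]
      constructor
      · intro h1 v hv
        cases v with
        | nil => simp at hv
        | cons x v =>
          have hv' : v.length = m := by simpa using hv
          have h2 : (P.phi w).perm = 1 := congrArg Wr.perm h1
          have h3 : ((P.phi w).sec x : P.L) ∈ (P.toKData.toRec.Phi m).ker := by
            have h4 : (((P.phi w).sec x : P.L) : P.L ⧸ (P.toKData.toRec.Phi m).ker) = 1 :=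
              congrFun (congrArg Wr.sec h1) x
            exact (QuotientGroup.eq_one_iff _).1 h4
          obtain ⟨h5, h6⟩ := (Rec.mem_ker_Phi _).1 h3 v hv'
          refine ⟨?_, ?_⟩
          · rw [TAut.act_cons, ← P.toKData.toRec.pi_sec1, ← P.toKData.toRec.phi_perm]
            rw [show (P.toKData.toRec.phi w).perm = 1 from h2]
            show x :: (P.toKData.toRec.pi ((P.phi w).sec x)).act v = x :: v
            rw [h5]
          · rw [Rec.secL_cons]
            exact h6
      · intro h1
        rcases isEmpty_or_nonempty X with hX | hX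
        · exact Wr.ext (Equiv.ext fun x => hX.elim x) (fun x => hX.elim x)
        have h2 : ∀ x v, v.length = m → (P.pi w) [] x = x ∧
            ((P.pi w).sec [x]).act v = v ∧ P.toKData.toRec.secL ((P.phi w).sec x) v = 1 := by
          intro x v hv
          obtain ⟨h3, h4⟩ := h1 (x :: v) (by simp [hv])
          have h5 : (P.pi w) [] x :: ((P.pi w).sec [x]).act v = x :: v := h3
          exact ⟨(List.cons.inj h5).1, (List.cons.inj h5).2, h4⟩
        refine Wr.ext ?_ (fun x => ?_)
        · ext x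
          show (P.phi w).perm x = x
          rw [show (P.phi w).perm = P.pi w [] from P.toKData.toRec.phi_perm w]
          exact (h2 x (List.replicate m x) (by simp)).1
        · show (((P.phi w).sec x : P.L) : P.L ⧸ (P.toKData.toRec.Phi m).ker) = 1
          rw [QuotientGroup.eq_one_iff, Rec.mem_ker_Phi]
          intro v hv
          obtain ⟨_, h3, h4⟩ := h2 x v hv
          refine ⟨?_, h4⟩
          rw [show P.toKData.toRec.pi ((P.phi w).sec x) = (P.pi w).sec [x] from
            P.toKData.toRec.pi_sec1 w x]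
          exact h3
    let f : P.L ⧸ (P.toKData.toRec.Phi (m + 1)).ker →*
        Wr X (P.L ⧸ (P.toKData.toRec.Phi m).ker) :=
      QuotientGroup.lift _ p (fun w hw => (hp w).2 hw)
    refine (ih.wr X).sub (selfWr P.G P.hG hpar) f ?_ _ ?_
    · rw [injective_iff_map_eq_one]
      intro w hw
      obtain ⟨w, rfl⟩ := QuotientGroup.mk_surjective w
      have h1 : p w = 1 := hw
      exact (QuotientGroup.eq_one_iff _).2 ((hp w).1 h1)
    · intro g
      show p (P.a g) = _
      refine Wr.ext ?_ (fun x => ?_)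
      · show (P.phi (P.a g)).perm = (g : TAut X) []
        rw [P.phi_a']; rfl
      · show (((P.phi (P.a g)).sec x : P.L) : P.L ⧸ (P.toKData.toRec.Phi m).ker) =
          ((P.a ⟨(g : TAut X).sec [x], P.hG g g.2 x⟩ : P.L) : P.L ⧸ (P.toKData.toRec.Phi m).ker)
        rw [P.phi_a']; rfl

/-- The relative statement for the group generated by the directed automorphisms. -/
theorem rel_H [Finite X] (P : Pre X) (hpar : ∀ g : TAut X, (∀ x, g.sec [x] ∈ P.G) → g ∈ P.G)
    (h : RelFJ P.G P.L P.a) : RelFJ P.G P.H (Subgroup.inclusion P.G_le) := by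
  have : Nonempty X := ⟨P.x0⟩
  have h1 := RelFJ.quot (fun m => (P.toKData.toRec.Phi m).ker)
    (fun i j hij => P.toKData.toRec.ker_mono hij) P.pi.rangeRestrict
    P.pi.rangeRestrict_surjective (by
      intro w
      have h0 : P.pi.rangeRestrict w = 1 ↔ P.pi w = 1 := by
        rw [Subtype.ext_iff]; rfl
      rw [h0]
      constructor
      · intro hw
        obtain ⟨k, hk⟩ := KData.exists_Wd (D := P.toKData) w
        obtain ⟨m, hm⟩ := KData.killed k w hk hw
        refine ⟨m, (Rec.mem_ker_Phi _).2 (fun v hv => ⟨?_, hm v hv⟩)⟩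
        show (P.pi w).act v = v
        rw [hw, TAut.act_one]
      · rintro ⟨m, hm⟩
        exact P.toKData.toRec.ker_le m hm) P.a (rel_ker P hpar h)
  have h2 : P.pi.rangeRestrict.comp P.a = Subgroup.inclusion P.G_le := by
    apply MonoidHom.ext
    intro g
    apply Subtype.ext
    exact P.pi_a g
  rw [h2] at h1
  exact h1

/-- The automorphisms with sections at a level in a group. -/
def lv (H : Subgroup (TAut X)) (m : ℕ) : Subgroup (TAut X) where
  carrier := {g | ∀ v : List X, v.length = m → g.sec v ∈ H}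
  one_mem' := fun _ _ => H.one_mem
  mul_mem' := by
    intro g h hg hh v hv
    rw [TAut.sec_mul]
    exact H.mul_mem (hg _ (by rw [TAut.length_act, hv])) (hh v hv)
  inv_mem' := by
    intro g hg v hv
    rw [TAut.sec_inv]
    exact H.inv_mem (hg _ (by rw [TAut.length_act, hv]))

theorem mem_lv {H : Subgroup (TAut X)} {m : ℕ} {g : TAut X} :
    g ∈ lv H m ↔ ∀ v : List X, v.length = m → g.sec v ∈ H := Iff.rfl

theorem rel_lv [Finite X] {G H : Subgroup (TAut X)} (hsec : ∀ g ∈ G, ∀ x, g.sec [x] ∈ G)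
    (hpar : ∀ g : TAut X, (∀ x, g.sec [x] ∈ G) → g ∈ G) (hGH : G ≤ H)
    (h : RelFJ G H (Subgroup.inclusion hGH)) (m : ℕ) (hm : G ≤ lv H m) :
    RelFJ G (lv H m) (Subgroup.inclusion hm) := by
  induction m with
  | zero =>
    have h0 : lv H 0 ≤ H := fun g hg => mem_lv.1 hg [] rfl
    exact h.sub' (Subgroup.inclusion h0) (Subgroup.inclusion_injective _) _ (fun x => rfl)
  | succ m ih =>
    have hm' : G ≤ lv H m := by
      intro g hg v hv
      exact hGH (sec_mem hsec hg v)
    have hs : ∀ g ∈ lv H (m + 1), ∀ x, g.sec [x] ∈ lv H m := by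
      intro g hg x v hv
      rw [← TAut.sec_cons]
      exact hg _ (by simp [hv])
    let f : lv H (m + 1) →* Wr X (lv H m) :=
      { toFun := fun g => ⟨(g : TAut X) [], fun x => ⟨(g : TAut X).sec [x], hs g g.2 x⟩⟩
        map_one' := rfl
        map_mul' := fun g h => Wr.ext rfl
          (fun x => Subtype.ext (TAut.sec_mul (g : TAut X) h [x])) }
    refine ((ih hm').wr X).sub (selfWr G hsec hpar) f ?_ _ (fun g => rfl)
    intro g g' hgg
    apply Subtype.ext
    apply TAut.dec_injective
    refine Wr.ext ?_ (fun x => ?_)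
    · have h1 := congrArg Wr.perm hgg
      exact h1
    · have h1 := congrArg Subtype.val (congrFun (congrArg Wr.sec hgg) x)
      exact h1

theorem rel_level [Finite X] {G H Q : Subgroup (TAut X)} (hsec : ∀ g ∈ G, ∀ x, g.sec [x] ∈ G)
    (hpar : ∀ g : TAut X, (∀ x, g.sec [x] ∈ G) → g ∈ G) (hGH : G ≤ H)
    (hHsec : ∀ g ∈ H, ∀ x, g.sec [x] ∈ H)
    (h : RelFJ G H (Subgroup.inclusion hGH)) (hGQ : G ≤ Q)
    (hQ : ∀ g ∈ Q, ∃ m, ∀ v : List X, v.length = m → g.sec v ∈ H) :
    RelFJ G Q (Subgroup.inclusion hGQ) := by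
  have hm : ∀ m, G ≤ lv H m := by
    intro m g hg v hv
    exact hGH (sec_mem hsec hg v)
  refine .union (fun m => (lv H m).subgroupOf Q) ?_ ?_ _ ?_ ?_
  · intro i j hij
    apply Subgroup.comap_mono
    intro g hg v hv
    rw [← List.take_append_drop i v, ← TAut.sec_sec]
    exact sec_mem hHsec (hg _ (by rw [List.length_take]; omega)) _
  · intro g
    obtain ⟨m, hm⟩ := hQ g.1 g.2
    exact ⟨m, Subgroup.mem_subgroupOf.2 hm⟩
  · intro i x
    exact Subgroup.mem_subgroupOf.2 (hm i x.2)
  · intro i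
    refine (rel_lv hsec hpar hGH h i (hm i)).sub'
      { toFun := fun x => ⟨x.1.1, Subgroup.mem_subgroupOf.1 x.2⟩
        map_one' := rfl
        map_mul' := fun _ _ => rfl } ?_ _ (fun x => rfl)
    intro x y hxy
    exact Subtype.ext (Subtype.ext (congrArg (fun z : lv H i => (z : TAut X)) hxy))

end Pool.Agent.H8.FJ2
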