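import Pool.Agent.H8.FJ2.Lev

/-!
# The groups of automorphisms of polynomial type
-/

namespace Pool.Agent.H8.FJ2

open Classical Pool.Agent.H8.FJ

variable {X : Type} [Finite X] [Nonempty X]

/-- The data of degree zero. -/
def Pz (x0 : X) : Pre X where
  x0 := x0
  G := (PD X 0).Q
  C := Cq x0 (PD X 0)
  E := ⊥
  Ξ := Set.univ
  hG := (PD X 0).sec
  hC0 c hc := congrFun hc.1 0
  hCx c hc := Cq_sec hc
  hCy c hc y hy := hc.2.2 0 y hy
  hEG := bot_le
  hEC := bot_le
  hEx := by
    intro e he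
    rw [Subgroup.mem_bot] at he ⊢
    rw [he]; rfl
  hΞ _ _ := trivial
  hΞ0 := trivial
  hK := by
    rintro g ⟨D, hg⟩ ξ _ η _ h
    have h1 : actRay g η = ξ := by
      apply pre_inj
      intro n
      rw [← act_pre, h]
    have h2 : g.sec (pre η D) = 1 := sec_eq_one_of_finD hg (by rw [length_pre])
    refine ⟨D, ?_, Or.inl h2⟩
    rw [← h1, shift_iterate_actRay, h2, actRay_one]

/-- The data of degree `n + 1`. -/
def Ps (x0 : X) (n : ℕ) : Pre X where
  x0 := x0
  G := (PD X (n + 1)).Q
  C := Cq x0 (PD X (n + 1))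
  E := Cq x0 (PD X n)
  Ξ := {fun _ => x0}
  hG := (PD X (n + 1)).sec
  hC0 c hc := congrFun hc.1 0
  hCx c hc := Cq_sec hc
  hCy c hc y hy := hc.2.2 0 y hy
  hEG := Cq_le_St
  hEC := Cq_mono (PD_le n)
  hEx c hc := Cq_sec hc
  hΞ := by
    rintro _ rfl
    exact shift_const x0
  hΞ0 := rfl
  hK := by
    rintro g hg _ rfl _ rfl h
    have h1 : actRay g (fun _ => x0) = fun _ => x0 := by
      apply pre_inj
      intro n
      rw [← act_pre, h]
    obtain ⟨m, hm⟩ := exists_mem_Cq (q := PD X n) hg h1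
    refine ⟨m, rfl, Or.inr ⟨shift_iterate_const _ _, ?_⟩⟩
    rw [pre_const]
    exact hm

theorem P0_fj' : FJClass (PD X 0).Q := .of_locallyFinite Fin'_locallyFinite

/-- Degree zero. -/
theorem rel_zero : RelFJ (PD X 0).Q (PD X 1).Q (Subgroup.inclusion (PD_le 0)) := by
  obtain ⟨x0⟩ := ‹Nonempty X›
  have : Nonempty X := ⟨x0⟩
  let P := Pz x0
  have hA : FJClass (Amalg P.iE P.jE) := by
    have hsub : Subsingleton P.E := by
      show Subsingleton (⊥ : Subgroup (TAut X))
      infer_instance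
    exact .amalg_retract P.iE P.jE 1 (Subgroup.inclusion_injective _)
      (fun e => Subsingleton.elim _ _) P0_fj' (Cq_fj x0 _ P0_fj')
  have hL : FJClass P.L := .coprod hA (.free _)
  have h1 : RelFJ P.G P.L P.a := by
    refine .retract P.a (P.lift (MonoidHom.id P.G) 1 ?_ (fun _ => 1)) ?_ hL
    · intro e
      have he : e = 1 := by
        apply Subtype.ext
        exact Subgroup.mem_bot.1 e.2
      rw [he, map_one, map_one, map_one, map_one]
    · intro x
      rw [P.lift_a]
      rfl
  have h2 := rel_H P (PD X 0).par h1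
  refine rel_level (PD X 0).sec (PD X 0).par P.G_le (fun g hg x => P.H_sec hg x) h2
    (PD_le 0) (fun g hg => ?_)
  exact St_level x0 P.G_le P.C_le (fun ξ => P.tau_mem trivial) hg

/-- The induction step. -/
theorem rel_succ (n : ℕ) (hfj : FJClass (PD X (n + 1)).Q)
    (h : RelFJ (PD X n).Q (PD X (n + 1)).Q (Subgroup.inclusion (PD_le n))) :
    RelFJ (PD X (n + 1)).Q (PD X (n + 2)).Q (Subgroup.inclusion (PD_le (n + 1))) := by
  obtain ⟨x0⟩ := ‹Nonempty X›
  have : Nonempty X := ⟨x0⟩
  let P := Ps x0 n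
  have hC : RelFJ P.E P.C P.jE := Cq_rel x0 (PD_le n) h
  have hA : RelFJ P.G (Amalg P.iE P.jE) (aInl P.iE P.jE) :=
    hC.amalg P.iE (Subgroup.inclusion_injective _) hfj
  have hRay : IsEmpty P.Ray := ⟨fun ξ => ξ.2.2 ξ.2.1⟩
  have h1 : RelFJ P.G P.L P.a := by
    let f : P.L →* Amalg P.iE P.jE := Monoid.Coprod.lift (MonoidHom.id _) 1
    have hf : ∀ w, (Monoid.Coprod.inl : _ →* P.L) (f w) = w := by
      intro w
      have h2 : (Monoid.Coprod.inl : _ →* P.L).comp f = MonoidHom.id _ := by
        apply Monoid.Coprod.hom_ext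
        · exact MonoidHom.ext (fun x => rfl)
        · apply FreeGroup.ext_hom
          intro ξ
          exact hRay.elim ξ
      exact congrArg (fun f : P.L →* P.L => f w) h2
    refine hA.sub' f ?_ P.a ?_
    · intro x y hxy
      rw [← hf x, hxy, hf]
    · intro x
      show f (Monoid.Coprod.inl _) = _
      rw [Monoid.Coprod.lift_apply_inl]
      rfl
  have h2 := rel_H P (PD X (n + 1)).par h1
  refine rel_level (PD X (n + 1)).sec (PD X (n + 1)).par P.G_le (fun g hg x => P.H_sec hg x) h2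
    (PD_le (n + 1)) (fun g hg => ?_)
  exact St_level x0 P.G_le P.C_le (fun ξ => P.G_le (tau_mem_St (PD X n) x0 ξ)) hg

theorem PD_fj (n : ℕ) : FJClass (PD X n).Q ∧
    RelFJ (PD X n).Q (PD X (n + 1)).Q (Subgroup.inclusion (PD_le n)) := by
  induction n with
  | zero => exact ⟨P0_fj', rel_zero⟩
  | succ n ih => exact ⟨ih.2.fj, rel_succ n ih.2.fj ih.2⟩

omit [Finite X] [Nonempty X] in
/-- Groups generated by automorphisms of polynomial type. -/
theorem FJClass.of_polyType [Finite X] {K : Subgroup (TAut X)}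
    (hK : K ≤ Subgroup.closure {g | ∃ n, PolyType n g}) : FJClass K := by
  rcases isEmpty_or_nonempty X with hX | hX
  · have : Subsingleton (TAut X) := by
      constructor
      intro g h
      ext v x
      exact hX.elim x
    exact .finite _
  · have hmono : ∀ i j, i ≤ j → (PD X i).Q ≤ (PD X j).Q := fun i j hij =>
      monotone_nat_of_le_succ (f := fun i => (PD X i).Q) PD_le hij
    have hle : Subgroup.closure {g : TAut X | ∃ n, PolyType n g} ≤ ⨆ n, (PD X n).Q := by
      rw [Subgroup.closure_le]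
      rintro g ⟨n, hn⟩
      exact (le_iSup (fun n => (PD X n).Q) n) (mem_PD.2 hn)
    have hdir : Directed (· ≤ ·) (fun n => (PD X n).Q) :=
      (monotone_nat_of_le_succ (f := fun i => (PD X i).Q) PD_le).directed_le
    refine .union (I := ℕ) (fun n => ((PD X n).Q).subgroupOf K) ?_ ?_ ?_
    · intro i j hij
      exact Subgroup.comap_mono (hmono i j hij)
    · intro g
      obtain ⟨n, hn⟩ := (Subgroup.mem_iSup_of_directed hdir).1 (hle (hK g.2))
      exact ⟨n, Subgroup.mem_subgroupOf.2 hn⟩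
    · intro n
      refine .sub (G := (PD X n).Q)
        { toFun := fun x => ⟨x.1.1, Subgroup.mem_subgroupOf.1 x.2⟩
          map_one' := rfl
          map_mul' := fun _ _ => rfl } ?_ (PD_fj n).1
      intro x y hxy
      exact Subtype.ext (Subtype.ext (congrArg (fun z : (PD X n).Q => (z : TAut X)) hxy))

end Pool.Agent.H8.FJ2
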