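import Pool.Agent.H8.FJ.Types

/-!
# Automorphisms of polynomial type and of polynomial activity
-/

namespace Pool.Agent.H8.FJ2

open Pool.Agent.H8.FJ

variable {X : Type}

/-- The automorphism has finitely many sections at the vertices adjacent to each ray: for every
ray `ξ` the sections at the vertices `pre ξ k ++ [x]` with `x ≠ ξ k` form a finite set. -/
def RayFinite (g : TAut X) : Prop :=
  ∀ ξ : ℕ → X, {s : TAut X | ∃ k x, x ≠ ξ k ∧ g.sec (pre ξ k ++ [x]) = s}.Finite

/-- Automorphisms of polynomial type.  The automorphisms of type `0` are the finitary ones, and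
`g` is of type `n + 1` if it has finitely many sections at the vertices adjacent to each ray and
there is a finite set `R` of rays such that the sections of `g` at all the vertices which are not on
the rays of `R` are of type `n`. -/
def PolyType : ℕ → TAut X → Prop
  | 0, g => ∃ D : ℕ, ∀ v : List X, D ≤ v.length → g v = 1
  | n + 1, g => RayFinite g ∧ ∃ R : Set (ℕ → X), R.Finite ∧
      ∀ v : List X, (∀ ξ ∈ R, v ≠ pre ξ v.length) → PolyType n (g.sec v)

/-- Polynomial activity: the number of the vertices of the level `n` at which the section of `g` is
non-trivial is bounded by a polynomial in `n`. -/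
def PolyActivity (g : TAut X) : Prop := ∃ C d : ℕ, ∀ n, activity g n ≤ C * (n + 1) ^ d

end Pool.Agent.H8.FJ2
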