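import Pool.Agent.H8.FJ.Auto
import Pool.Agent.H8.FJ2.Types

/-!
# Lemmas on automorphisms of polynomial type
-/

namespace Pool.Agent.H8.FJ2

open Classical Pool.Agent.H8.FJ

variable {X : Type}

/-! ### Rays -/

theorem act_adj (g : TAut X) (ξ : ℕ → X) (k : ℕ) (x : X) :
    g.act (pre ξ k ++ [x]) = pre (actRay g ξ) k ++ [g (pre ξ k) x] := by
  rw [TAut.act_append, act_pre, TAut.act_cons, TAut.act_nil, TAut.sec_apply, List.append_nil]

theorem act_adj_ne (g : TAut X) {ξ : ℕ → X} {k : ℕ} {x : X} (h : x ≠ ξ k) :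
    g (pre ξ k) x ≠ actRay g ξ k := fun h1 => h ((g (pre ξ k)).injective h1)

theorem pre_congr {ξ η : ℕ → X} {k : ℕ} (h : ∀ i < k, ξ i = η i) : pre ξ k = pre η k := by
  induction k with
  | zero => rfl
  | succ k ih =>
    rw [pre_succ_last, pre_succ_last, ih (fun i hi => h i (hi.trans (Nat.lt_succ_self k))),
      h k (Nat.lt_succ_self k)]

theorem exists_fork {ξ η : ℕ → X} (h : ξ ≠ η) : ∃ k, pre ξ k = pre η k ∧ ξ k ≠ η k := by
  have h1 : ∃ n, ξ n ≠ η n := by
    by_contra hcon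
    push Not at hcon
    exact h (funext hcon)
  refine ⟨Nat.find h1, pre_congr (fun i hi => ?_), Nat.find_spec h1⟩
  have := Nat.find_min h1 hi
  rwa [not_not] at this

/-- The word is not on a ray: it leaves the ray at some vertex. -/
theorem exists_leave {ζ : ℕ → X} {v : List X} (h : v ≠ pre ζ v.length) :
    ∃ k x w, x ≠ ζ k ∧ v = pre ζ k ++ x :: w := by
  induction v generalizing ζ with
  | nil => exact absurd rfl h
  | cons y v ih =>
    by_cases hy : y = ζ 0
    · subst hy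
      rw [List.length_cons, pre_succ] at h
      obtain ⟨k, x, w, h1, h2⟩ := ih (ζ := shift ζ) (fun h3 => h (by rw [← h3]))
      refine ⟨k + 1, x, w, h1, ?_⟩
      rw [pre_succ, List.cons_append, ← h2]
    · exact ⟨0, y, v, hy, rfl⟩

theorem leave_ne {ζ : ℕ → X} {k : ℕ} {x : X} (h : x ≠ ζ k) (w : List X) :
    pre ζ k ++ x :: w ≠ pre ζ (pre ζ k ++ x :: w).length := by
  intro h1
  rw [List.length_append, List.length_cons, length_pre, pre_add] at h1
  have h2 := List.append_cancel_left h1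
  rw [pre_succ, shift_iterate, Nat.zero_add] at h2
  exact h (List.cons.inj h2).1

/-! ### Ray finite automorphisms -/

theorem RayFinite.one : RayFinite (1 : TAut X) := by
  intro ξ
  refine (Set.finite_singleton 1).subset ?_
  rintro _ ⟨k, x, _, rfl⟩
  rfl

theorem RayFinite.mul {g h : TAut X} (hg : RayFinite g) (hh : RayFinite h) :
    RayFinite (g * h) := by
  intro ξ
  refine (Set.Finite.image2 (· * ·) (hg (actRay h ξ)) (hh ξ)).subset ?_
  rintro _ ⟨k, x, hx, rfl⟩
  rw [TAut.sec_mul, act_adj]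
  exact ⟨_, ⟨k, _, act_adj_ne h hx, rfl⟩, _, ⟨k, x, hx, rfl⟩, rfl⟩

theorem RayFinite.inv {g : TAut X} (hg : RayFinite g) : RayFinite g⁻¹ := by
  intro ξ
  refine (Set.Finite.image (fun s => s⁻¹) (hg (actRay g⁻¹ ξ))).subset ?_
  rintro _ ⟨k, x, hx, rfl⟩
  rw [TAut.sec_inv, act_adj]
  exact ⟨_, ⟨k, _, act_adj_ne g⁻¹ hx, rfl⟩, rfl⟩

theorem RayFinite.sec1 {g : TAut X} (hg : RayFinite g) (x : X) : RayFinite (g.sec [x]) := by
  intro ξ
  refine (hg (consRay x ξ)).subset ?_
  rintro _ ⟨k, y, hy, rfl⟩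
  refine ⟨k + 1, y, hy, ?_⟩
  rw [pre_consRay, List.cons_append, TAut.sec_cons]

theorem RayFinite.sec {g : TAut X} (hg : RayFinite g) (v : List X) : RayFinite (g.sec v) := by
  induction v generalizing g with
  | nil => exact hg
  | cons x v ih => rw [TAut.sec_cons]; exact ih (hg.sec1 x)

theorem RayFinite.par [Finite X] {g : TAut X} (h : ∀ x, RayFinite (g.sec [x])) :
    RayFinite g := by
  intro ξ
  refine ((Set.finite_range (fun x => g.sec [x])).union (h (ξ 0) (shift ξ))).subset ?_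
  rintro _ ⟨k, x, hx, rfl⟩
  cases k with
  | zero => exact Or.inl ⟨x, rfl⟩
  | succ k =>
    refine Or.inr ⟨k, x, hx, ?_⟩
    rw [pre_succ, List.cons_append, TAut.sec_cons g (ξ 0) (pre (shift ξ) k ++ [x])]

/-- A criterion. -/
theorem RayFinite.of_ray [Finite X] {g : TAut X} (ζ : ℕ → X)
    (h1 : {s : TAut X | ∃ k x, x ≠ ζ k ∧ g.sec (pre ζ k ++ [x]) = s}.Finite)
    (h2 : ∀ k x, x ≠ ζ k → RayFinite (g.sec (pre ζ k ++ [x]))) : RayFinite g := by
  intro ξ
  by_cases hξ : ξ = ζ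
  · rw [hξ]; exact h1
  · obtain ⟨k0, hk0, hne⟩ := exists_fork hξ
    have h3 := h2 k0 (ξ k0) hne (shift^[k0 + 1] ξ)
    have h4 : (⋃ k ∈ Set.Iic k0, Set.range (fun x => g.sec (pre ξ k ++ [x]))).Finite :=
      Set.Finite.biUnion (Set.finite_Iic k0) (fun k _ => Set.finite_range _)
    refine (h4.union h3).subset ?_
    rintro _ ⟨k, x, hx, rfl⟩
    rcases le_or_gt k k0 with hk | hk
    · left
      rw [Set.mem_iUnion₂]
      exact ⟨k, hk, x, rfl⟩
    · right
      obtain ⟨j, rfl⟩ := Nat.exists_eq_add_of_le (Nat.succ_le_of_lt hk)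
      refine ⟨j, x, ?_, ?_⟩
      · rw [shift_iterate, Nat.add_comm]
        exact hx
      · rw [TAut.sec_sec, ← hk0, ← pre_succ_last, ← List.append_assoc, ← pre_add]

theorem RayFinite.tau [Finite X] (x0 : X) (ξ : ℕ → X) : RayFinite (FJ.tau x0 ξ) := by
  have h : ∀ k x, x ≠ (fun _ : ℕ => x0) k →
      (FJ.tau x0 ξ).sec (pre (fun _ => x0) k ++ [x]) = 1 := by
    intro k x hx
    rw [pre_const]
    exact finD_zero ((Dir.tau x0 ξ).sec_ne (replicate_append_ne x0 k hx []))
  refine .of_ray (fun _ => x0) ?_ ?_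
  · refine (Set.finite_singleton 1).subset ?_
    rintro _ ⟨k, x, hx, rfl⟩
    exact h k x hx
  · intro k x hx
    rw [h k x hx]
    exact .one

theorem RayFinite.of_finD [Finite X] {D : ℕ} {g : TAut X} (hg : g ∈ finD X D) : RayFinite g := by
  intro ξ
  have h1 : (finD X D : Set (TAut X)).Finite := Set.finite_coe_iff.1 (finite_finD D)
  refine h1.subset ?_
  rintro _ ⟨k, x, _, rfl⟩
  exact finD_sec hg _

/-! ### Self-similar groups closed under passing to the parents -/

/-- A self-similar group, closed under passing to the parents, of ray finite automorphisms. -/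
structure QD (X : Type) where
  Q : Subgroup (TAut X)
  sec : ∀ g ∈ Q, ∀ x, g.sec [x] ∈ Q
  par : ∀ g : TAut X, (∀ x, g.sec [x] ∈ Q) → g ∈ Q
  rf : ∀ g ∈ Q, RayFinite g

theorem word_inv_eq {h : TAut X} {ξ : ℕ → X} {v : List X} (hv : h.act v = pre ξ v.length) :
    v = pre (actRay h⁻¹ ξ) v.length := by
  have h1 : h.act (pre (actRay h⁻¹ ξ) v.length) = h.act v := by
    rw [act_pre, ← actRay_mul, mul_inv_cancel, actRay_one, hv]
  exact (h.act_injective h1).symm

/-- The next group. -/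
def St [Finite X] [Nonempty X] (q : QD X) : QD X where
  Q :=
    { carrier := {g | RayFinite g ∧ ∃ R : Set (ℕ → X), R.Finite ∧
        ∀ v : List X, (∀ ξ ∈ R, v ≠ pre ξ v.length) → g.sec v ∈ q.Q}
      one_mem' := ⟨.one, ∅, Set.finite_empty, fun v _ => q.Q.one_mem⟩
      mul_mem' := by
        rintro g h ⟨hg, R, hR, hg2⟩ ⟨hh, R', hR', hh2⟩
        refine ⟨hg.mul hh, R' ∪ actRay h ⁻¹' R,
          hR'.union (hR.preimage (actRay_injective h).injOn), fun v hv => ?_⟩
        rw [TAut.sec_mul]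
        refine q.Q.mul_mem (hg2 _ (fun ξ hξ h1 => ?_)) (hh2 _ (fun ξ hξ => hv ξ (Or.inl hξ)))
        rw [TAut.length_act] at h1
        refine hv (actRay h⁻¹ ξ) (Or.inr ?_) (word_inv_eq h1)
        show actRay h (actRay h⁻¹ ξ) ∈ R
        rw [← actRay_mul, mul_inv_cancel, actRay_one]
        exact hξ
      inv_mem' := by
        rintro g ⟨hg, R, hR, hg2⟩
        refine ⟨hg.inv, actRay g '' R, hR.image _, fun v hv => ?_⟩
        rw [TAut.sec_inv]
        refine q.Q.inv_mem (hg2 _ (fun ξ hξ h1 => ?_))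
        rw [TAut.length_act] at h1
        have h2 := word_inv_eq h1
        rw [inv_inv] at h2
        exact hv _ ⟨ξ, hξ, rfl⟩ h2 }
  sec := by
    rintro g ⟨hg, R, hR, hg2⟩ x
    refine ⟨hg.sec1 x, shift '' R, hR.image _, fun v hv => ?_⟩
    rw [← TAut.sec_cons]
    apply hg2
    intro ξ hξ h1
    rw [List.length_cons, pre_succ] at h1
    exact hv _ ⟨ξ, hξ, rfl⟩ (List.cons.inj h1).2
  par := by
    intro g h
    have h1 : ∀ x, ∃ R : Set (ℕ → X), R.Finite ∧
        ∀ v : List X, (∀ ξ ∈ R, v ≠ pre ξ v.length) → (g.sec [x]).sec v ∈ q.Q :=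
      fun x => (h x).2
    choose R hR hR2 using h1
    refine ⟨.par (fun x => (h x).1), {fun _ => Classical.arbitrary X} ∪ ⋃ x, consRay x '' R x,
      (Set.finite_singleton _).union (Set.finite_iUnion (fun x => (hR x).image _)),
      fun v hv => ?_⟩
    cases v with
    | nil => exact absurd rfl (hv _ (Or.inl rfl))
    | cons x v =>
      rw [TAut.sec_cons]
      apply hR2
      intro ξ hξ h1
      apply hv (consRay x ξ) (Or.inr (Set.mem_iUnion.2 ⟨x, ξ, hξ, rfl⟩))
      rw [List.length_cons, pre_consRay, ← h1]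
  rf _ hg := hg.1

theorem mem_St [Finite X] [Nonempty X] {q : QD X} {g : TAut X} : g ∈ (St q).Q ↔
    RayFinite g ∧ ∃ R : Set (ℕ → X), R.Finite ∧
        ∀ v : List X, (∀ ξ ∈ R, v ≠ pre ξ v.length) → g.sec v ∈ q.Q := Iff.rfl

theorem QD.secs (q : QD X) {g : TAut X} (hg : g ∈ q.Q) (v : List X) : g.sec v ∈ q.Q :=
  sec_mem q.sec hg v

theorem le_St [Finite X] [Nonempty X] (q : QD X) : q.Q ≤ (St q).Q := fun g hg =>
  ⟨q.rf g hg, ∅, Set.finite_empty, fun v _ => q.secs hg v⟩

/-- The finitary automorphisms. -/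
def Q0 [Finite X] : QD X where
  Q := Fin' X
  sec := Fin'_sec
  par _ h := Fin'_of_sec h
  rf := by
    rintro g ⟨D, hg⟩
    exact .of_finD hg

/-- The groups of the automorphisms of polynomial type. -/
def PD (X : Type) [Finite X] [Nonempty X] : ℕ → QD X
  | 0 => Q0
  | n + 1 => St (PD X n)

theorem mem_PD [Finite X] [Nonempty X] {n : ℕ} {g : TAut X} : g ∈ (PD X n).Q ↔ PolyType n g := by
  induction n generalizing g with
  | zero => exact Iff.rfl
  | succ n ih =>
    show g ∈ (St (PD X n)).Q ↔ _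
    rw [mem_St]
    unfold PolyType
    simp only [ih]

theorem PD_le [Finite X] [Nonempty X] (n : ℕ) : (PD X n).Q ≤ (PD X (n + 1)).Q := le_St _

/-! ### The stabilisers of the base ray -/

/-- The automorphisms fixing the base ray with decorations in a group. -/
def Cq (x0 : X) (q : QD X) : Subgroup (TAut X) where
  carrier := {c | actRay c (fun _ => x0) = (fun _ => x0) ∧ RayFinite c ∧
    ∀ m, ∀ y, y ≠ x0 → c.sec (List.replicate m x0 ++ [y]) ∈ q.Q}
  one_mem' := ⟨rfl, .one, fun _ _ _ => q.Q.one_mem⟩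
  mul_mem' := by
    rintro g h ⟨hg, hg1, hg2⟩ ⟨hh, hh1, hh2⟩
    refine ⟨by rw [actRay_mul, hh, hg], hg1.mul hh1, ?_⟩
    intro m y hy
    rw [TAut.sec_mul]
    obtain ⟨z, hz, hz2⟩ := act_base_append hh m hy
    rw [hz2]
    exact q.Q.mul_mem (hg2 m z hz) (hh2 m y hy)
  inv_mem' := by
    rintro g ⟨hg, hg1, hg2⟩
    have hg' := actRay_inv_eq hg
    refine ⟨hg', hg1.inv, ?_⟩
    intro m y hy
    rw [TAut.sec_inv]
    obtain ⟨z, hz, hz2⟩ := act_base_append hg' m hy
    rw [hz2]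
    exact q.Q.inv_mem (hg2 m z hz)

theorem mem_Cq {x0 : X} {q : QD X} {c : TAut X} : c ∈ Cq x0 q ↔
    actRay c (fun _ => x0) = (fun _ => x0) ∧ RayFinite c ∧
    ∀ m, ∀ y, y ≠ x0 → c.sec (List.replicate m x0 ++ [y]) ∈ q.Q := Iff.rfl

theorem Cq_sec {x0 : X} {q : QD X} {c : TAut X} (hc : c ∈ Cq x0 q) : c.sec [x0] ∈ Cq x0 q := by
  obtain ⟨h1, h2, h3⟩ := hc
  refine ⟨?_, h2.sec1 x0, ?_⟩
  · have h := shift_actRay c (fun _ => x0)
    rw [h1, shift_const] at h
    exact h.symm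
  · intro m y hy
    exact h3 (m + 1) y hy

theorem Cq_le_St [Finite X] [Nonempty X] {x0 : X} {q : QD X} : Cq x0 q ≤ (St q).Q := by
  rintro c ⟨h1, h2, h3⟩
  refine ⟨h2, {fun _ => x0}, Set.finite_singleton _, fun v hv => ?_⟩
  obtain ⟨k, x, w, hx, hv2⟩ := exists_leave (hv _ rfl)
  have h4 : v = (List.replicate k x0 ++ [x]) ++ w := by
    rw [hv2, pre_const, List.append_assoc]; rfl
  rw [h4, ← TAut.sec_sec]
  exact q.secs (h3 k x hx) w

theorem Cq_mono {x0 : X} {q q' : QD X} (h : q.Q ≤ q'.Q) : Cq x0 q ≤ Cq x0 q' := by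
  rintro c ⟨h1, h2, h3⟩
  exact ⟨h1, h2, fun m y hy => h (h3 m y hy)⟩

/-- A deep section of an automorphism fixing the base ray. -/
theorem exists_mem_Cq [Finite X] [Nonempty X] {x0 : X} {q : QD X} {g : TAut X}
    (hg : g ∈ (St q).Q) (hfix : actRay g (fun _ => x0) = fun _ => x0) :
    ∃ m, g.sec (List.replicate m x0) ∈ Cq x0 q := by
  obtain ⟨h1, R, hR, h2⟩ := hg
  obtain ⟨l, hl⟩ := exists_separating (hR.insert (fun _ => x0))
  refine ⟨l, ?_, h1.sec _, ?_⟩
  · have h3 := shift_iterate_actRay g (fun _ => x0) l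
    rw [hfix, shift_iterate_const, pre_const] at h3
    exact h3.symm
  · intro m y hy
    rw [TAut.sec_sec]
    apply h2
    intro ξ hξ h3
    have h4 : List.replicate l x0 ++ (List.replicate m x0 ++ [y]) =
        pre (fun _ => x0) (l + m) ++ y :: [] := by
      rw [pre_const, List.replicate_add, List.append_assoc]
    have h5 : (fun _ => x0) = ξ := by
      apply hl _ (Set.mem_insert _ _) _ (Set.mem_insert_of_mem _ hξ)
      have h6 := congrArg (List.take l) h3
      rw [List.take_left' (by rw [List.length_replicate]),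
        pre_take _ (by rw [List.length_append, List.length_replicate]; omega)] at h6
      rw [pre_const]
      exact h6
    rw [← h5, h4] at h3
    exact leave_ne (ζ := fun _ => x0) (k := l + m) hy [] h3

/-- A directed automorphism is conjugate to one fixing the base ray. -/
theorem conj_mem_Cq [Finite X] {q : QD X} (x0 : X) {g : TAut X} {ζ : ℕ → X} (h1 : RayFinite g)
    (h2 : ∀ k x, x ≠ ζ k → g.sec (pre ζ k ++ [x]) ∈ q.Q) :
    (FJ.tau x0 (actRay g ζ))⁻¹ * g * FJ.tau x0 ζ ∈ Cq x0 q := by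
  have e1 : actRay (FJ.tau x0 ζ) (fun _ => x0) = ζ := actRay_tau x0 ζ
  have e2 : actRay (FJ.tau x0 (actRay g ζ)) (fun _ => x0) = actRay g ζ := actRay_tau x0 _
  refine ⟨by rw [actRay_mul, actRay_mul, e1, actRay_inv_eq e2],
    ((RayFinite.tau x0 _).inv.mul h1).mul (RayFinite.tau x0 _), ?_⟩
  intro m y hy
  have h3 := act_adj (FJ.tau x0 ζ) (fun _ => x0) m y
  have h4 := act_adj_ne (FJ.tau x0 ζ) (ξ := fun _ => x0) (k := m) hy
  rw [e1] at h3 h4
  rw [pre_const] at h3 h4
  set z := (FJ.tau x0 ζ) (List.replicate m x0) y with hz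
  have h5 : (FJ.tau x0 ζ).sec (List.replicate m x0 ++ [y]) = 1 :=
    finD_zero ((Dir.tau x0 ζ).sec_ne (replicate_append_ne x0 m hy []))
  have h6 : (FJ.tau x0 (actRay g ζ))⁻¹.sec (g.act (pre ζ m ++ [z])) = 1 := by
    have h7 := (Dir.tau x0 (actRay g ζ)).inv
    rw [e2] at h7
    refine finD_zero (h7.sec_ne ?_)
    rw [act_adj]
    exact leave_ne (act_adj_ne g h4) []
  rw [TAut.sec_mul, TAut.sec_mul, h3, h5, h6, one_mul, mul_one]
  exact h2 m z h4

/-- The sections at a deep level. -/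
theorem St_level [Finite X] [Nonempty X] {q : QD X} (x0 : X) {H : Subgroup (TAut X)}
    (hqH : q.Q ≤ H) (hCH : Cq x0 q ≤ H) (hτ : ∀ ξ, FJ.tau x0 ξ ∈ H) {g : TAut X}
    (hg : g ∈ (St q).Q) : ∃ m, ∀ v : List X, v.length = m → g.sec v ∈ H := by
  obtain ⟨h1, R, hR, h2⟩ := hg
  obtain ⟨l, hl⟩ := exists_separating hR
  refine ⟨l, fun v hv => ?_⟩
  by_cases hv2 : ∀ ξ ∈ R, v ≠ pre ξ v.length
  · exact hqH (h2 v hv2)
  · push Not at hv2
    obtain ⟨ξ, hξ, hv3⟩ := hv2
    rw [hv] at hv3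
    subst hv3
    have h3 : ∀ k x, x ≠ (shift^[l] ξ) k →
        (g.sec (pre ξ l)).sec (pre (shift^[l] ξ) k ++ [x]) ∈ q.Q := by
      intro k x hx
      rw [TAut.sec_sec]
      apply h2
      intro η hη h4
      have h5 : ξ = η := by
        apply hl _ hξ _ hη
        have h6 := congrArg (List.take l) h4
        rw [List.take_left' (length_pre _ _),
          pre_take _ (by rw [List.length_append, length_pre]; omega)] at h6
        exact h6
      rw [← h5, ← List.append_assoc, ← pre_add] at h4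
      rw [shift_iterate, Nat.add_comm] at hx
      exact leave_ne (ζ := ξ) (k := l + k) hx [] h4
    have h4 := hCH (conj_mem_Cq x0 (h1.sec _) h3)
    set h := g.sec (pre ξ l) with hh
    have h5 : h = FJ.tau x0 (actRay h (shift^[l] ξ)) *
        ((FJ.tau x0 (actRay h (shift^[l] ξ)))⁻¹ * h * FJ.tau x0 (shift^[l] ξ)) *
        (FJ.tau x0 (shift^[l] ξ))⁻¹ := by group
    rw [h5]
    exact mul_mem (mul_mem (hτ _) h4) (inv_mem (hτ _))

theorem tau_mem_St [Finite X] [Nonempty X] (q : QD X) (x0 : X) (ξ : ℕ → X) :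
    FJ.tau x0 ξ ∈ (St q).Q := by
  refine ⟨.tau x0 ξ, {fun _ => x0}, Set.finite_singleton _, fun v hv => ?_⟩
  have h1 : (FJ.tau x0 ξ).sec v = 1 := finD_zero ((Dir.tau x0 ξ).sec_ne (hv _ rfl))
  rw [h1]
  exact q.Q.one_mem

end Pool.Agent.H8.FJ2
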