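import Pool.Agent.H8.FJ2.FP
import Pool.Agent.H8.FJ.Class

/-!
# Amalgamated products over a retract
-/

namespace Pool.Agent.H8.FJ2

open Monoid Classical Pool.Agent.H8.FJ

section Amalg

variable {A B K : Type} [Group A] [Group B] [Group K] (i : K →* A) (j : K →* B)

/-- The first factor. -/
def aInl : A →* Amalg i j := (QuotientGroup.mk' _).comp Monoid.Coprod.inl

/-- The second factor. -/
def aInr : B →* Amalg i j := (QuotientGroup.mk' _).comp Monoid.Coprod.inr

theorem aGlue (k : K) : aInl i j (i k) = aInr i j (j k) := by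
  unfold aInl aInr
  simp only [MonoidHom.comp_apply]
  rw [QuotientGroup.mk'_apply, QuotientGroup.mk'_apply, QuotientGroup.eq]
  have h1 : (Monoid.Coprod.inl (i k) * (Monoid.Coprod.inr (j k))⁻¹ :
      Monoid.Coprod A B) ∈ Subgroup.normalClosure
        {x : Monoid.Coprod A B | ∃ k, x = Monoid.Coprod.inl (i k) *
          (Monoid.Coprod.inr (j k))⁻¹} := Subgroup.subset_normalClosure ⟨k, rfl⟩
  have h2 := Subgroup.normalClosure_normal.mem_comm h1
  have h3 := Subgroup.inv_mem _ h2
  rw [mul_inv_rev, inv_inv] at h3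
  exact h3

/-- The universal property. -/
def aLift {H : Type} [Group H] (f : A →* H) (g : B →* H) (h : ∀ k, f (i k) = g (j k)) :
    Amalg i j →* H :=
  QuotientGroup.lift _ (Monoid.Coprod.lift f g) (by
    have h1 : Subgroup.normalClosure
      {x : Monoid.Coprod A B | ∃ k, x = Monoid.Coprod.inl (i k) *
        (Monoid.Coprod.inr (j k))⁻¹} ≤ (Monoid.Coprod.lift f g).ker := by
      apply Subgroup.normalClosure_le_normal
      rintro x ⟨k, rfl⟩
      show _ ∈ (Monoid.Coprod.lift f g).ker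
      rw [MonoidHom.mem_ker, map_mul, map_inv, Monoid.Coprod.lift_apply_inl,
        Monoid.Coprod.lift_apply_inr, h, mul_inv_cancel]
    intro x hx
    exact h1 hx)

theorem aLift_inl {H : Type} [Group H] (f : A →* H) (g : B →* H) (h : ∀ k, f (i k) = g (j k))
    (x : A) : aLift i j f g h (aInl i j x) = f x := by
  unfold aLift aInl
  rw [MonoidHom.comp_apply, QuotientGroup.mk'_apply, QuotientGroup.lift_mk,
    Monoid.Coprod.lift_apply_inl]

theorem aLift_inr {H : Type} [Group H] (f : A →* H) (g : B →* H) (h : ∀ k, f (i k) = g (j k))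
    (x : B) : aLift i j f g h (aInr i j x) = g x := by
  unfold aLift aInr
  rw [MonoidHom.comp_apply, QuotientGroup.mk'_apply, QuotientGroup.lift_mk,
    Monoid.Coprod.lift_apply_inr]

theorem aExt {H : Type} [Group H] {f g : Amalg i j →* H} (h1 : ∀ x, f (aInl i j x) =
    g (aInl i j x)) (h2 : ∀ x, f (aInr i j x) = g (aInr i j x)) : f = g := by
  apply QuotientGroup.monoidHom_ext
  apply Monoid.Coprod.hom_ext
  · ext x
    exact h1 x
  · ext x
    exact h2 x

end Amalg

section Retract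

variable {T D E : Type} [Group T] [Group D] [Group E] (i : E →* T) (ι : E →* D) (ρ : D →* E)

/-- A section of the cosets. -/
noncomputable def rs (s : T ⧸ i.range) : T := if s = ((1 : T) : T ⧸ i.range) then 1 else s.out

theorem rs_mk (s : T ⧸ i.range) : ((rs i s : T) : T ⧸ i.range) = s := by
  unfold rs
  split_ifs with h
  · exact h.symm
  · exact Quotient.out_eq' s

theorem rs_one : rs i ((1 : T) : T ⧸ i.range) = 1 := if_pos rfl

theorem rs_mem (t : T) (s : T ⧸ i.range) : (rs i (t • s))⁻¹ * (t * rs i s) ∈ i.range := by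
  rw [← QuotientGroup.eq, rs_mk]
  conv_lhs => rw [← rs_mk i s]
  rfl

/-- The cocycle. -/
noncomputable def wc (t : T) (s : T ⧸ i.range) : E := (rs_mem i t s).choose

theorem i_wc (t : T) (s : T ⧸ i.range) : i (wc i t s) = (rs i (t • s))⁻¹ * (t * rs i s) :=
  (rs_mem i t s).choose_spec

theorem wc_mul (hi : Function.Injective i) (t t' : T) (s : T ⧸ i.range) :
    wc i (t * t') s = wc i t (t' • s) * wc i t' s := by
  apply hi
  rw [map_mul, i_wc, i_wc, i_wc, mul_smul]
  group

theorem wc_base (hi : Function.Injective i) (e : E) : wc i (i e) ((1 : T) : T ⧸ i.range) = e := by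
  apply hi
  have h1 : (i e) • ((1 : T) : T ⧸ i.range) = ((1 : T) : T ⧸ i.range) := by
    show ((i e * 1 : T) : T ⧸ i.range) = ((1 : T) : T ⧸ i.range)
    rw [QuotientGroup.eq, mul_one, mul_one]
    exact ⟨e⁻¹, map_inv _ _⟩
  rw [i_wc, h1, rs_one, mul_one, inv_one, one_mul]

/-- The action on the free product of the copies of the kernel. -/
noncomputable def rD (hi : Function.Injective i) : FPD T (T ⧸ i.range) ρ.ker where
  σ := MulAction.toPermHom T (T ⧸ i.range)
  α t s := MulAut.conjNormal (ι (wc i t s))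
  hα t t' s := by
    rw [wc_mul i hi, map_mul, map_mul]
    rfl

theorem rD_σ (hi : Function.Injective i) (t : T) (s : T ⧸ i.range) :
    (rD i ι ρ hi).σ t s = t • s := rfl

theorem rD_α (hi : Function.Injective i) (t : T) (s : T ⧸ i.range) (n : ρ.ker) :
    ((rD i ι ρ hi).α t s n : D) = ι (wc i t s) * n * (ι (wc i t s))⁻¹ := rfl

/-- The component in the kernel. -/
def kp (hρ : ∀ e, ρ (ι e) = e) (d : D) : ρ.ker := ⟨d * (ι (ρ d))⁻¹, by
  rw [MonoidHom.mem_ker, map_mul, map_inv, hρ, mul_inv_cancel]⟩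

theorem coe_kp (hρ : ∀ e, ρ (ι e) = e) (d : D) : (kp ι ρ hρ d : D) = d * (ι (ρ d))⁻¹ := rfl

theorem kp_ι (hρ : ∀ e, ρ (ι e) = e) (e : E) : kp ι ρ hρ (ι e) = 1 := by
  apply Subtype.ext
  rw [coe_kp, hρ, mul_inv_cancel]
  rfl

/-- The homomorphism from `D`. -/
noncomputable def f1D (hi : Function.Injective i) (hρ : ∀ e, ρ (ι e) = e) :
    D →* (rD i ι ρ hi).FP where
  toFun d := ⟨lt ((1 : T) : T ⧸ i.range) (kp ι ρ hρ d), i (ρ d)⟩
  map_one' := by
    refine SemidirectProduct.ext ?_ ?_
    · show lt _ (kp ι ρ hρ 1) = 1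
      have h : kp ι ρ hρ 1 = 1 := by
        have h1 := kp_ι ι ρ hρ 1
        rwa [map_one] at h1
      rw [h, map_one]
    · show i (ρ 1) = 1
      rw [map_one, map_one]
  map_mul' d d' := by
    refine SemidirectProduct.ext ?_ ?_
    · show lt _ (kp ι ρ hρ (d * d')) = lt _ (kp ι ρ hρ d) *
        (rD i ι ρ hi).θ (i (ρ d)) (lt _ (kp ι ρ hρ d'))
      have h1 : (i (ρ d)) • ((1 : T) : T ⧸ i.range) = ((1 : T) : T ⧸ i.range) := by
        show ((i (ρ d) * 1 : T) : T ⧸ i.range) = ((1 : T) : T ⧸ i.range)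
        rw [QuotientGroup.eq, mul_one, mul_one]
        exact ⟨(ρ d)⁻¹, map_inv _ _⟩
      rw [FPD.θ_apply, FPD.act_of, rD_σ, h1, ← map_mul (lt _)]
      congr 1
      apply Subtype.ext
      rw [Subgroup.coe_mul, rD_α, wc_base i hi, coe_kp, coe_kp, coe_kp, map_mul, map_mul]
      group
    · show i (ρ (d * d')) = i (ρ d) * i (ρ d')
      rw [map_mul, map_mul]

/-- The embedding of the amalgamated product. -/
noncomputable def f1 (hi : Function.Injective i) (hρ : ∀ e, ρ (ι e) = e) :
    Amalg i ι →* (rD i ι ρ hi).FP :=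
  aLift i ι SemidirectProduct.inr (f1D i ι ρ hi hρ) (by
    intro e
    refine SemidirectProduct.ext ?_ ?_
    · show 1 = lt _ (kp ι ρ hρ (ι e))
      rw [kp_ι, map_one]
    · show i e = i (ρ (ι e))
      rw [hρ])

/-- The inverse on the free product. -/
noncomputable def f2K : KK (T ⧸ i.range) ρ.ker →* Amalg i ι :=
  CoprodI.lift (fun s => (MulAut.conj (aInl i ι (rs i s))).toMonoidHom.comp
    ((aInr i ι).comp ρ.ker.subtype))

theorem f2K_lt (s : T ⧸ i.range) (n : ρ.ker) : f2K i ι ρ (lt s n) =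
    aInl i ι (rs i s) * aInr i ι n * (aInl i ι (rs i s))⁻¹ := by
  unfold f2K
  rw [CoprodI.lift_of]
  rfl

/-- The inverse. -/
noncomputable def f2 (hi : Function.Injective i) : (rD i ι ρ hi).FP →* Amalg i ι :=
  SemidirectProduct.lift (f2K i ι ρ) (aInl i ι) (by
    intro t
    apply CoprodI.ext_hom
    intro s
    ext n
    show f2K i ι ρ ((rD i ι ρ hi).θ t (lt s n)) =
      aInl i ι t * f2K i ι ρ (lt s n) * (aInl i ι t)⁻¹
    rw [FPD.θ_apply, FPD.act_of, rD_σ, f2K_lt, f2K_lt, rD_α, map_mul, map_mul, map_inv,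
      ← aGlue, i_wc, map_mul, map_inv, map_mul]
    group)

theorem f2_f1 (hi : Function.Injective i) (hρ : ∀ e, ρ (ι e) = e) (x : Amalg i ι) :
    f2 i ι ρ hi (f1 i ι ρ hi hρ x) = x := by
  have h : (f2 i ι ρ hi).comp (f1 i ι ρ hi hρ) = MonoidHom.id _ := by
    apply aExt
    · intro t
      rw [MonoidHom.comp_apply]
      unfold f1
      rw [aLift_inl]
      unfold f2
      rw [SemidirectProduct.lift_inr]
      rfl
    · intro d
      rw [MonoidHom.comp_apply]
      unfold f1
      rw [aLift_inr]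
      show f2K i ι ρ (lt ((1 : T) : T ⧸ i.range) (kp ι ρ hρ d)) * aInl i ι (i (ρ d)) =
        aInr i ι d
      rw [f2K_lt, rs_one, map_one, one_mul, inv_one, mul_one, aGlue, ← map_mul]
      congr 1
      rw [coe_kp, inv_mul_cancel_right]
  exact congrArg (fun f : Amalg i ι →* Amalg i ι => f x) h

/-- Amalgamated products over a retract. -/
theorem FJClass.amalg_retract (hi : Function.Injective i) (hρ : ∀ e, ρ (ι e) = e)
    (hT : FJClass T) (hD : FJClass D) : FJClass (Amalg i ι) := by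
  refine .sub (G := (rD i ι ρ hi).FP) (f1 i ι ρ hi hρ) ?_ ?_
  · intro x y hxy
    rw [← f2_f1 i ι ρ hi hρ x, hxy, f2_f1]
  · refine (rD i ι ρ hi).fj ρ.ker.subtype (fun t s => ι (wc i t s)) ?_ ?_
      ρ.ker.subtype_injective hT hD
    · intro t t' s
      rw [wc_mul i hi, map_mul]
      rfl
    · intro t s n
      exact rD_α i ι ρ hi t s n

end Retract

end Pool.Agent.H8.FJ2
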